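import Mathlib
set_option autoImplicit false

/-!
# Functions of intersections: basic definitions

`f` is a function on the subsets of a finite set `I`, `c` the coefficients of its multilinear
polynomial.
-/

namespace Pool.Agent.Helper25.Meet

open Finset

/-- `c` is the family of coefficients of the multilinear polynomial of `f` -/
def IsMob {I : Type*} [DecidableEq I] (c f : Finset I → ℝ) : Prop :=
  ∀ z, f z = ∑ S ∈ z.powerset, c S

/-- the number of members of `R` that contain `B` -/
def cnt {I : Type*} [DecidableEq I] (R : Finset (Finset I)) (B : Finset I) : ℕ :=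
  (R.filter (fun x => B ⊆ x)).card

open Classical in
/-- the active monomials of a column `y` -/
noncomputable def act {I : Type*} [Fintype I] [DecidableEq I] (c : Finset I → ℝ)
    (R : Finset (Finset I)) (y : Finset I) : Finset (Finset I) :=
  univ.filter (fun V => V ≠ ∅ ∧ c V ≠ 0 ∧ V ⊆ y ∧ ∃ x ∈ R, V ⊆ x)

open Classical in
/-- the monomials of `G` that disappear or merge when the variables in `A` are set to `1` -/
noncomputable def bad {I : Type*} [Fintype I] [DecidableEq I] (G : Finset (Finset I))
    (R : Finset (Finset I)) (N : ℕ) (A : Finset I) : Finset (Finset I) :=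
  G.filter (fun S => cnt R (A ∪ S) * N < cnt R A ∨ S ⊆ A ∨ ∃ S' ∈ G, S' ≠ S ∧ S' \ A = S \ A)

end Pool.Agent.Helper25.Meet
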