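import Mathlib
import Pool.Agent.Helper25.Meet.Defs
set_option autoImplicit false

/-!
# The move lemma (counting argument)
-/

namespace Pool.Agent.Helper25.Meet

open Finset

namespace MoveAux

/-- Double counting: re-sampling one coordinate. -/
lemma card_resample {α ι : Type*} [Fintype ι] [DecidableEq ι] [DecidableEq α]
    (G : Finset α) (l : ι) (B : (ι → α) → Prop) [DecidablePred B] :
    ∑ S ∈ Fintype.piFinset (fun _ : ι => G),
        (G.filter fun v => B (Function.update S l v)).card =
      ((Fintype.piFinset fun _ : ι => G).filter B).card * G.card := by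
  have h1 : ∑ S ∈ Fintype.piFinset (fun _ : ι => G),
        (G.filter fun v => B (Function.update S l v)).card =
      (((Fintype.piFinset fun _ : ι => G) ×ˢ G).filter
        fun p => B (Function.update p.1 l p.2)).card := by
    rw [Finset.card_filter, Finset.sum_product]
    refine Finset.sum_congr rfl fun S _ => ?_
    rw [Finset.card_filter]
  rw [h1, ← Finset.card_product]
  refine Finset.card_nbij' (fun p => (Function.update p.1 l p.2, p.1 l))
    (fun p => (Function.update p.1 l p.2, p.1 l)) ?_ ?_ ?_ ?_
  · rintro ⟨S, v⟩ h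
    simp only [Finset.coe_filter, Finset.mem_product, Fintype.mem_piFinset,
      Set.mem_ofPred_eq] at h
    obtain ⟨⟨h2, h3⟩, h4⟩ := h
    simp only [Finset.coe_product, Finset.coe_filter, Set.mem_prod, Set.mem_ofPred_eq,
      Fintype.mem_piFinset, Finset.mem_coe]
    refine ⟨⟨fun i => ?_, h4⟩, h2 l⟩
    by_cases hi : i = l
    · subst hi; simpa using h3
    · rw [Function.update_of_ne hi]; exact h2 i
  · rintro ⟨S, v⟩ h
    simp only [Finset.coe_product, Finset.coe_filter, Set.mem_prod, Set.mem_ofPred_eq,
      Fintype.mem_piFinset, Finset.mem_coe] at h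
    obtain ⟨⟨h2, h3⟩, h4⟩ := h
    simp only [Finset.coe_filter, Finset.mem_product, Fintype.mem_piFinset,
      Set.mem_ofPred_eq, Function.update_idem, Function.update_eq_self]
    refine ⟨⟨fun i => ?_, h2 l⟩, h3⟩
    by_cases hi : i = l
    · subst hi; simpa using h4
    · rw [Function.update_of_ne hi]; exact h2 i
  · rintro ⟨S, v⟩ _
    simp
  · rintro ⟨S, v⟩ _
    simp

/-- Union bound: a sequence avoiding all bad events. -/
lemma exists_avoid {α ι κ : Type*} [Fintype ι] [DecidableEq ι] [DecidableEq α] [Fintype κ]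
    [Nonempty κ] (G : Finset α) (hG : G.Nonempty) (l : κ → ι) (B : κ → (ι → α) → Prop)
    (h : ∀ j, ∀ S : ι → α, (∀ i, S i ∈ G) → ∀ T : Finset α,
      (∀ v ∈ T, v ∈ G ∧ B j (Function.update S (l j) v)) → Fintype.card κ * T.card < G.card) :
    ∃ S : ι → α, (∀ i, S i ∈ G) ∧ ∀ j, ¬ B j S := by
  classical
  by_contra hne
  push Not at hne
  set Q := Fintype.piFinset fun _ : ι => G with hQ
  have hQne : Q.Nonempty := by
    obtain ⟨g, hg⟩ := hG
    exact ⟨fun _ => g, by rw [hQ, Fintype.mem_piFinset]; exact fun _ => hg⟩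
  have hQpos : 0 < Q.card := hQne.card_pos
  have hGpos : 0 < G.card := hG.card_pos
  have h1 : ∀ j, Fintype.card κ * (Q.filter (B j)).card < Q.card := by
    intro j
    have h2 := card_resample G (l j) (B j)
    have h3 : Fintype.card κ * ∑ S ∈ Q, (G.filter fun v => B j (Function.update S (l j) v)).card
        < ∑ S ∈ Q, G.card := by
      rw [Finset.mul_sum]
      refine Finset.sum_lt_sum_of_nonempty hQne fun S hS => ?_
      refine h j S (fun i => Fintype.mem_piFinset.mp hS i) _ ?_
      intro v hv
      exact Finset.mem_filter.mp hv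
    rw [Finset.sum_const, smul_eq_mul, h2, ← mul_assoc] at h3
    exact lt_of_mul_lt_mul_right h3 (Nat.zero_le _)
  have h4 : Q ⊆ Finset.univ.biUnion fun j => Q.filter (B j) := by
    intro S hS
    obtain ⟨j, hj⟩ := hne S (fun i => Fintype.mem_piFinset.mp hS i)
    rw [Finset.mem_biUnion]
    exact ⟨j, Finset.mem_univ _, Finset.mem_filter.mpr ⟨hS, hj⟩⟩
  have h5 : Q.card ≤ ∑ j : κ, (Q.filter (B j)).card :=
    (Finset.card_le_card h4).trans Finset.card_biUnion_le
  have h6 : Fintype.card κ * Q.card < Fintype.card κ * Q.card := by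
    calc Fintype.card κ * Q.card ≤ Fintype.card κ * ∑ j : κ, (Q.filter (B j)).card :=
          Nat.mul_le_mul_left _ h5
      _ = ∑ j : κ, Fintype.card κ * (Q.filter (B j)).card := by rw [Finset.mul_sum]
      _ < ∑ _j : κ, Q.card := Finset.sum_lt_sum_of_nonempty Finset.univ_nonempty fun j _ => h1 j
      _ = Fintype.card κ * Q.card := by simp
  exact lt_irrefl _ h6

end MoveAux

/-- THE MOVE (counting argument). -/
theorem exists_move {I : Type*} [Fintype I] [DecidableEq I] (c f : Finset I → ℝ) (hm : IsMob c f)
    (h01 : ∀ z, f z = 0 ∨ f z = 1) (r : ℕ) (hr : (univ.filter (fun S => c S ≠ 0)).card ≤ r)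
    (N J : ℕ) (hN : 1 ≤ N)
    -- the key lemma (proved elsewhere, here a hypothesis)
    (hkey : ∀ (c' f' : Finset I → ℝ), IsMob c' f' → (∀ z, f' z = 0 ∨ f' z = 1) →
      (univ.filter (fun S => c' S ≠ 0)).card ≤ r →
      ∀ S : Fin J → Finset I, (∀ i, c' (S i) ≠ 0) → (∀ i, ¬ S i ⊆ (univ.erase i).biUnion S) →
      ¬ ∀ i T, c' T ≠ 0 →
        T \ (univ.erase i).biUnion S = S i \ (univ.erase i).biUnion S → T = S i)
    (R : Finset (Finset I)) (hR : R.Nonempty) (y : Finset I) :
    ∃ g : Fin J → Finset I, (∀ i, g i = ∅ ∨ g i ∈ act c R y) ∧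
      R.card ≤ cnt R (univ.biUnion g) * N ^ J ∧
      (act c R y).card ≤ 2 * J * (bad (act c R y) R N (univ.biUnion g)).card := by
  classical
  have hNJ : 1 ≤ N ^ J := Nat.one_le_pow _ _ hN
  rcases Finset.eq_empty_or_nonempty (act c R y) with hG | hG
  · refine ⟨fun _ => ∅, fun _ => Or.inl rfl, ?_, by rw [hG]; simp⟩
    have h1 : (univ.biUnion fun _ : Fin J => (∅ : Finset I)) = ∅ := by
      ext x; simp
    rw [h1]
    have h2 : cnt R ∅ = R.card := by
      unfold cnt
      rw [Finset.filter_true_of_mem]
      intro x _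
      exact Finset.empty_subset x
    rw [h2]
    exact Nat.le_mul_of_pos_right _ hNJ
  rcases Nat.eq_zero_or_pos J with rfl | hJ
  · exfalso
    refine hkey c f hm h01 hr (fun i => i.elim0) (fun i => i.elim0) (fun i => i.elim0) ?_
    intro i
    exact i.elim0
  by_contra hcon
  set G := act c R y with hGdef
  have hcon' : ∀ g : Fin J → Finset I, (∀ i, g i = ∅ ∨ g i ∈ G) →
      R.card ≤ cnt R (univ.biUnion g) * N ^ J →
      2 * J * (bad G R N (univ.biUnion g)).card < G.card := by
    intro g h1 h2
    by_contra h3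
    exact hcon ⟨g, h1, h2, not_lt.mp h3⟩
  have hGpos : 0 < G.card := hG.card_pos
  haveI : Nonempty (Fin J × Bool) := ⟨(⟨0, hJ⟩, true)⟩
  -- the index sets
  let ix : Fin J × Bool → Finset (Fin J) := fun p =>
    if p.2 then univ.filter (fun i => i < p.1) else univ.erase p.1
  have hix : ∀ p, p.1 ∉ ix p := by
    rintro ⟨l, b⟩
    cases b <;> simp [ix]
  have hupd : ∀ (p : Fin J × Bool) (S : Fin J → Finset I) (v : Finset I),
      (ix p).biUnion (Function.update S p.1 v) = (ix p).biUnion S := by
    intro p S v
    refine Finset.biUnion_congr rfl fun i hi => ?_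
    have : i ≠ p.1 := by
      rintro rfl
      exact hix p hi
    rw [Function.update_of_ne this]
  obtain ⟨S, hSG, hS⟩ := MoveAux.exists_avoid G hG (fun p : Fin J × Bool => p.1)
    (fun p S => R.card ≤ cnt R ((ix p).biUnion S) * N ^ J ∧
      S p.1 ∈ bad G R N ((ix p).biUnion S)) (by
    intro p S hS T hT
    have hcard : Fintype.card (Fin J × Bool) = 2 * J := by simp [mul_comm]
    rw [hcard]
    by_cases hc : R.card ≤ cnt R ((ix p).biUnion S) * N ^ J
    · have hg := hcon' (fun i => if i ∈ ix p then S i else ∅) (fun i => by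
        by_cases hi : i ∈ ix p
        · right; rw [if_pos hi]; exact hS i
        · left; rw [if_neg hi])
      have hU : (univ.biUnion fun i => if i ∈ ix p then S i else ∅) = (ix p).biUnion S := by
        ext x
        simp only [Finset.mem_biUnion, Finset.mem_univ, true_and]
        constructor
        · rintro ⟨i, hi⟩
          by_cases h : i ∈ ix p
          · rw [if_pos h] at hi; exact ⟨i, h, hi⟩
          · rw [if_neg h] at hi; simp at hi
        · rintro ⟨i, h, hi⟩
          exact ⟨i, by rw [if_pos h]; exact hi⟩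
      rw [hU] at hg
      refine lt_of_le_of_lt (Nat.mul_le_mul_left _ (Finset.card_le_card ?_)) (hg hc)
      intro v hv
      have h1 := (hT v hv).2.2
      rw [hupd, Function.update_self] at h1
      exact h1
    · have : T = ∅ := by
        rw [Finset.eq_empty_iff_forall_notMem]
        intro v hv
        have h1 := (hT v hv).2.1
        rw [hupd] at h1
        exact hc h1
      rw [this]
      simpa using hGpos)
  -- the sizes
  have hsz : ∀ m : ℕ, m ≤ J →
      R.card ≤ cnt R ((univ.filter fun i : Fin J => i.val < m).biUnion S) * N ^ m := by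
    intro m
    induction m with
    | zero =>
      intro _
      have h1 : ((univ.filter fun i : Fin J => i.val < 0).biUnion S) = ∅ := by simp
      rw [h1]
      unfold cnt
      rw [Finset.filter_true_of_mem (fun x _ => Finset.empty_subset x)]
      simp
    | succ m ih =>
      intro hm'
      have h1 := ih (by omega)
      have h2 := hS (⟨m, by omega⟩, true)
      have h3 : ix (⟨m, by omega⟩, true) = univ.filter fun i : Fin J => i.val < m := by
        ext i
        simp only [ix, if_true, Finset.mem_filter, Finset.mem_univ, true_and]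
        exact Fin.lt_def
      simp only [h3] at h2
      have h4 : R.card ≤ cnt R ((univ.filter fun i : Fin J => i.val < m).biUnion S) * N ^ J :=
        h1.trans (Nat.mul_le_mul_left _ (Nat.pow_le_pow_right hN (by omega)))
      have h5 := fun h => h2 ⟨h4, h⟩
      have h6 : ¬ cnt R ((univ.filter fun i : Fin J => i.val < m).biUnion S ∪
          S ⟨m, by omega⟩) * N < cnt R ((univ.filter fun i : Fin J => i.val < m).biUnion S) := by
        intro h
        apply h5
        unfold bad
        rw [Finset.mem_filter]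
        exact ⟨hSG _, Or.inl h⟩
      have h7 : (univ.filter fun i : Fin J => i.val < m + 1).biUnion S =
          (univ.filter fun i : Fin J => i.val < m).biUnion S ∪ S ⟨m, by omega⟩ := by
        ext x
        simp only [Finset.mem_union, Finset.mem_biUnion, Finset.mem_filter, Finset.mem_univ,
          true_and]
        constructor
        · rintro ⟨i, hi, hx⟩
          rcases Nat.lt_succ_iff_lt_or_eq.mp hi with h | h
          · exact Or.inl ⟨i, h, hx⟩
          · right
            have : i = ⟨m, by omega⟩ := Fin.ext h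
            rwa [this] at hx
        · rintro (⟨i, hi, hx⟩ | hx)
          · exact ⟨i, by omega, hx⟩
          · exact ⟨⟨m, by omega⟩, by simp, hx⟩
      rw [h7]
      calc R.card ≤ cnt R ((univ.filter fun i : Fin J => i.val < m).biUnion S) * N ^ m := h1
        _ ≤ (cnt R ((univ.filter fun i : Fin J => i.val < m).biUnion S ∪
              S ⟨m, by omega⟩) * N) * N ^ m := Nat.mul_le_mul_right _ (not_lt.mp h6)
        _ = _ := by rw [pow_succ]; ring
  have hall : R.card ≤ cnt R (univ.biUnion S) * N ^ J := by
    have h1 := hsz J le_rfl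
    have h2 : (univ.filter fun i : Fin J => i.val < J) = univ := by
      ext i; simp
    rwa [h2] at h1
  have hmono : ∀ A B : Finset I, A ⊆ B → cnt R B ≤ cnt R A := by
    intro A B hAB
    unfold cnt
    refine Finset.card_le_card fun x hx => ?_
    rw [Finset.mem_filter] at hx ⊢
    exact ⟨hx.1, hAB.trans hx.2⟩
  have hnb : ∀ l : Fin J, S l ∉ bad G R N ((univ.erase l).biUnion S) := by
    intro l hl
    have h1 := hS (l, false)
    have h2 : ix (l, false) = univ.erase l := by simp [ix]
    simp only [h2] at h1
    refine h1 ⟨?_, hl⟩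
    refine hall.trans (Nat.mul_le_mul_right _ (hmono _ _ ?_))
    exact Finset.biUnion_subset_biUnion_of_subset_left _ (Finset.erase_subset _ _)
  have hcpos : 0 < cnt R (univ.biUnion S) := by
    by_contra h
    have h0 : cnt R (univ.biUnion S) = 0 := by omega
    rw [h0, zero_mul] at hall
    have := hR.card_pos
    omega
  obtain ⟨x, hx⟩ := Finset.card_pos.mp hcpos
  rw [Finset.mem_filter] at hx
  obtain ⟨hxR, hxA⟩ := hx
  have hact : ∀ V, V ∈ G ↔ V ≠ ∅ ∧ c V ≠ 0 ∧ V ⊆ y ∧ ∃ x ∈ R, V ⊆ x := by
    intro V
    rw [hGdef]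
    unfold act
    simp
  have hSw : ∀ i, S i ⊆ x ∩ y := by
    intro i
    refine Finset.subset_inter ?_ ((hact _).mp (hSG i)).2.2.1
    exact (Finset.subset_biUnion_of_mem S (Finset.mem_univ i)).trans hxA
  have hns : ∀ i, ¬ S i ⊆ (univ.erase i).biUnion S := by
    intro i h
    apply hnb i
    unfold bad
    rw [Finset.mem_filter]
    exact ⟨hSG i, Or.inr (Or.inl h)⟩
  refine hkey (fun T => if T ⊆ x ∩ y then c T else 0) (fun z => f (z ∩ (x ∩ y))) ?_ ?_ ?_ S
    ?_ hns ?_
  · intro z
    dsimp only
    rw [hm (z ∩ (x ∩ y)), ← Finset.sum_filter]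
    refine Finset.sum_congr ?_ fun _ _ => rfl
    ext T
    simp only [Finset.mem_powerset, Finset.mem_filter]
    constructor
    · intro h
      exact ⟨h.trans Finset.inter_subset_left, h.trans Finset.inter_subset_right⟩
    · rintro ⟨h1, h2⟩
      exact Finset.subset_inter h1 h2
  · intro z
    exact h01 _
  · refine le_trans (Finset.card_le_card ?_) hr
    intro T hT
    rw [Finset.mem_filter] at hT ⊢
    refine ⟨Finset.mem_univ _, ?_⟩
    by_contra h
    apply hT.2
    simp [h]
  · intro i
    rw [if_pos (hSw i)]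
    exact ((hact _).mp (hSG i)).2.1
  · intro i T hT hTS
    have hTw : T ⊆ x ∩ y := by
      by_contra h
      rw [if_neg h] at hT
      exact hT rfl
    rw [if_pos hTw] at hT
    by_contra hne
    apply hnb i
    unfold bad
    rw [Finset.mem_filter]
    refine ⟨hSG i, Or.inr (Or.inr ⟨T, ?_, hne, hTS⟩)⟩
    rw [hact]
    refine ⟨?_, hT, hTw.trans Finset.inter_subset_right, x, hxR,
      hTw.trans Finset.inter_subset_left⟩
    rintro rfl
    apply hns i
    rw [← Finset.sdiff_eq_empty_iff_subset, ← hTS]
    simp

end Pool.Agent.Helper25.Meet
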