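import Mathlib
import Pool.Agent.Helper25.Meet.Defs
set_option autoImplicit false

/-!
# The update of a function of intersections: the variables of a set are put equal to one
-/

namespace Pool.Agent.Helper25.Meet

open Finset

namespace Upd

theorem sum_fib_le {α β : Type*} [DecidableEq β] (s : Finset α) (t : Finset β) (g : α → β) :
    ∑ b ∈ t, (s.filter (fun a => g a = b)).card ≤ s.card := by
  have h1 : ∀ b ∈ t, s.filter (fun a => g a = b) =
      (s.filter (fun a => g a ∈ t)).filter (fun a => g a = b) := by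
    intro b hb
    ext a
    simp only [mem_filter]
    constructor
    · rintro ⟨h1, h2⟩
      exact ⟨⟨h1, h2 ▸ hb⟩, h2⟩
    · rintro ⟨⟨h1, _⟩, h2⟩
      exact ⟨h1, h2⟩
  calc ∑ b ∈ t, (s.filter (fun a => g a = b)).card
      = ∑ b ∈ t, ((s.filter (fun a => g a ∈ t)).filter (fun a => g a = b)).card :=
        sum_congr rfl fun b hb => by rw [h1 b hb]
    _ = (s.filter (fun a => g a ∈ t)).card :=
        (card_eq_sum_card_fiberwise fun a ha => (mem_filter.1 ha).2).symm
    _ ≤ s.card := card_filter_le _ _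

variable {I : Type*} [Fintype I] [DecidableEq I]

open Classical in
/-- the new coefficients -/
noncomputable def nc (c : Finset I → ℝ) (A V : Finset I) : ℝ :=
  if Disjoint V A then ∑ S ∈ univ.filter (fun S => S \ A = V), c S else 0

theorem isMob (c f : Finset I → ℝ) (hm : IsMob c f) (A : Finset I) :
    IsMob (nc c A) (fun z => f (A ∪ z)) := by
  classical
  intro z
  change f (A ∪ z) = _
  rw [hm (A ∪ z), ← sum_fiberwise_of_maps_to (s := (A ∪ z).powerset) (t := z.powerset)
    (g := fun S => S \ A)]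
  · refine sum_congr rfl fun V hV => ?_
    rw [mem_powerset] at hV
    unfold nc
    split_ifs with hd
    · refine sum_congr ?_ fun _ _ => rfl
      ext S
      simp only [mem_filter, mem_powerset, mem_univ, true_and]
      constructor
      · exact fun h => h.2
      · intro h
        refine ⟨?_, h⟩
        intro i hi
        rw [mem_union]
        by_cases hiA : i ∈ A
        · exact Or.inl hiA
        · right
          apply hV
          rw [← h]
          exact mem_sdiff.2 ⟨hi, hiA⟩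
    · rw [filter_eq_empty_iff.2, sum_empty]
      intro S _ hS
      apply hd
      rw [← hS]
      exact sdiff_disjoint
  · intro S hS
    rw [mem_powerset] at hS ⊢
    intro i hi
    rw [mem_sdiff] at hi
    exact (mem_union.1 (hS hi.1)).resolve_left hi.2

theorem nc_ne (c : Finset I → ℝ) (A V : Finset I) (h : nc c A V ≠ 0) :
    Disjoint V A ∧ ∃ S, S \ A = V ∧ c S ≠ 0 := by
  classical
  unfold nc at h
  split_ifs at h with hd
  · refine ⟨hd, ?_⟩
    obtain ⟨S, hS, hS0⟩ := exists_ne_zero_of_sum_ne_zero h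
    exact ⟨S, (mem_filter.1 hS).2, hS0⟩
  · exact absurd rfl h

theorem supp (c : Finset I → ℝ) (A : Finset I) :
    (univ.filter (fun S => nc c A S ≠ 0)).card ≤ (univ.filter (fun S => c S ≠ 0)).card := by
  classical
  refine (card_le_card ?_).trans (card_image_le (f := fun S => S \ A))
  intro V hV
  obtain ⟨-, S, hS, hS0⟩ := nc_ne c A V (mem_filter.1 hV).2
  exact mem_image.2 ⟨S, mem_filter.2 ⟨mem_univ _, hS0⟩, hS⟩

open Classical in
/-- the new family of rows -/
noncomputable def nr (c : Finset I → ℝ) (r : ℕ) (R : Finset (Finset I)) (A : Finset I) :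
    Finset (Finset I) :=
  R.filter (fun x => A ⊆ x ∧ ∀ V, c V ≠ 0 → cnt R (A ∪ V) * (2 * r) < cnt R A → ¬ V ⊆ x)

theorem card_nr (c : Finset I → ℝ) (r : ℕ) (hr1 : 1 ≤ r)
    (hr : (univ.filter (fun S => c S ≠ 0)).card ≤ r) (R : Finset (Finset I)) (A : Finset I) :
    cnt R A ≤ 2 * (nr c r R A).card := by
  classical
  set W : Finset (Finset I) :=
    (univ.filter (fun S => c S ≠ 0)).filter (fun V => cnt R (A ∪ V) * (2 * r) < cnt R A) with hW
  have h1 : R.filter (fun x => A ⊆ x) ⊆
      nr c r R A ∪ W.biUnion (fun V => R.filter (fun x => A ∪ V ⊆ x)) := by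
    intro x hx
    rw [mem_filter] at hx
    by_cases h : ∀ V, c V ≠ 0 → cnt R (A ∪ V) * (2 * r) < cnt R A → ¬ V ⊆ x
    · exact mem_union_left _ (mem_filter.2 ⟨hx.1, hx.2, h⟩)
    · push Not at h
      obtain ⟨V, hV0, hVr, hVx⟩ := h
      refine mem_union_right _ (mem_biUnion.2 ⟨V, ?_, ?_⟩)
      · exact mem_filter.2 ⟨mem_filter.2 ⟨mem_univ _, hV0⟩, hVr⟩
      · exact mem_filter.2 ⟨hx.1, union_subset hx.2 hVx⟩
  have h2 : cnt R A ≤ (nr c r R A).card + ∑ V ∈ W, cnt R (A ∪ V) := by
    refine (card_le_card h1).trans ((card_union_le _ _).trans ?_)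
    exact Nat.add_le_add_left card_biUnion_le _
  have h3 : (∑ V ∈ W, cnt R (A ∪ V)) * (2 * r) ≤ r * cnt R A := by
    rw [sum_mul]
    calc ∑ V ∈ W, cnt R (A ∪ V) * (2 * r) ≤ ∑ _V ∈ W, cnt R A :=
          sum_le_sum fun V hV => (mem_filter.1 hV).2.le
      _ = W.card * cnt R A := by rw [sum_const, smul_eq_mul]
      _ ≤ r * cnt R A := Nat.mul_le_mul_right _ ((card_filter_le _ _).trans hr)
  have h4 : 2 * (∑ V ∈ W, cnt R (A ∪ V)) ≤ cnt R A := by
    have h5 : r * (2 * (∑ V ∈ W, cnt R (A ∪ V))) ≤ r * cnt R A := by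
      calc r * (2 * (∑ V ∈ W, cnt R (A ∪ V))) = (∑ V ∈ W, cnt R (A ∪ V)) * (2 * r) := by ring
        _ ≤ r * cnt R A := h3
    exact Nat.le_of_mul_le_mul_left h5 hr1
  omega

theorem potential (c : Finset I → ℝ) (r : ℕ) (R : Finset (Finset I)) (A y : Finset I)
    (hAy : A ⊆ y) :
    2 * (act (nc c A) (nr c r R A) y).card + (bad (act c R y) R (2 * r) A).card ≤
      2 * (act c R y).card := by
  classical
  set G := act c R y with hG
  set G' := act (nc c A) (nr c r R A) y with hG'
  set B := bad G R (2 * r) A with hB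
  have hBG : B ⊆ G := filter_subset _ _
  have hkey : ∀ V ∈ G', 2 ≤ 2 * ((G \ B).filter (fun S => S \ A = V)).card +
      (B.filter (fun S => S \ A = V)).card := by
    intro V hV
    obtain ⟨-, hV0, hVc, hVy, x, hx, hVx⟩ := mem_filter.1 hV
    obtain ⟨hd, S, hSV, hS0⟩ := nc_ne c A V hVc
    obtain ⟨hxR, hAx, hxr⟩ := mem_filter.1 hx
    have hsub : ∀ S : Finset I, S \ A = V → S ⊆ A ∪ V := by
      intro S hS i hi
      rw [mem_union]
      by_cases hiA : i ∈ A
      · exact Or.inl hiA
      · right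
        rw [← hS]
        exact mem_sdiff.2 ⟨hi, hiA⟩
    have hmemG : ∀ S : Finset I, S \ A = V → c S ≠ 0 → S ∈ G := by
      intro S hS hS0
      refine mem_filter.2 ⟨mem_univ _, ?_, hS0, (hsub S hS).trans (union_subset hAy hVy), x, hxR,
        (hsub S hS).trans (union_subset hAx hVx)⟩
      rintro rfl
      apply hV0
      rw [← hS, empty_sdiff]
    have hSG := hmemG S hSV hS0
    by_cases huniq : ∃ S' ∈ G, S' ≠ S ∧ S' \ A = V
    · -- at least two
      obtain ⟨S', hS'G, hne, hS'V⟩ := huniq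
      have h1 : S ∈ B.filter (fun S => S \ A = V) :=
        mem_filter.2 ⟨mem_filter.2 ⟨hSG, Or.inr (Or.inr ⟨S', hS'G, hne, by rw [hS'V, hSV]⟩)⟩, hSV⟩
      have h2 : S' ∈ B.filter (fun S => S \ A = V) :=
        mem_filter.2 ⟨mem_filter.2 ⟨hS'G, Or.inr (Or.inr ⟨S, hSG, hne.symm, by
          rw [hS'V, hSV]⟩)⟩, hS'V⟩
      have h3 : 1 < (B.filter (fun S => S \ A = V)).card :=
        one_lt_card.2 ⟨S, h1, S', h2, hne.symm⟩
      omega
    · push Not at huniq
      have h1 : S ∉ B := by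
        intro hSB
        rcases (mem_filter.1 hSB).2 with h2 | h2 | ⟨S', hS'G, hne, h2⟩
        · exact hxr S hS0 h2 ((hsub S hSV).trans (union_subset hAx hVx))
        · apply hV0
          rw [← hSV]
          exact sdiff_eq_empty_iff_subset.2 h2
        · exact huniq S' hS'G hne (by rw [h2, hSV])
      have h2 : 0 < ((G \ B).filter (fun S => S \ A = V)).card :=
        card_pos.2 ⟨S, mem_filter.2 ⟨mem_sdiff.2 ⟨hSG, h1⟩, hSV⟩⟩
      omega
  have h1 : 2 * G'.card ≤ 2 * (G \ B).card + B.card := by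
    calc 2 * G'.card = ∑ _V ∈ G', 2 := by rw [sum_const, smul_eq_mul, mul_comm]
      _ ≤ ∑ V ∈ G', (2 * ((G \ B).filter (fun S => S \ A = V)).card +
          (B.filter (fun S => S \ A = V)).card) := sum_le_sum hkey
      _ = 2 * ∑ V ∈ G', ((G \ B).filter (fun S => S \ A = V)).card +
          ∑ V ∈ G', (B.filter (fun S => S \ A = V)).card := by
        rw [sum_add_distrib, mul_sum]
      _ ≤ 2 * (G \ B).card + B.card :=
        Nat.add_le_add (Nat.mul_le_mul_left _ (sum_fib_le _ _ _)) (sum_fib_le _ _ _)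
  have h2 : (G \ B).card + B.card = G.card := card_sdiff_add_card_eq_card hBG
  omega

end Upd

/-- THE UPDATE: the variables in `A` are set to `1`. -/
theorem exists_update {I : Type*} [Fintype I] [DecidableEq I] (c f : Finset I → ℝ)
    (hm : IsMob c f) (h01 : ∀ z, f z = 0 ∨ f z = 1) (r : ℕ) (hr1 : 1 ≤ r)
    (hr : (univ.filter (fun S => c S ≠ 0)).card ≤ r) (R : Finset (Finset I)) (A : Finset I) :
    ∃ (c' f' : Finset I → ℝ) (R' : Finset (Finset I)), IsMob c' f' ∧ (∀ z, f' z = 0 ∨ f' z = 1) ∧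
      (univ.filter (fun S => c' S ≠ 0)).card ≤ r ∧ R' ⊆ R ∧ cnt R A ≤ 2 * R'.card ∧
      (∀ x ∈ R', ∀ y, A ⊆ y → f (x ∩ y) = f' (x ∩ y)) ∧
      ∀ (y : Finset I) (J : ℕ), A ⊆ y →
        (act c R y).card ≤ 2 * J * (bad (act c R y) R (2 * r) A).card →
        4 * J * (act c' R' y).card ≤ (4 * J - 1) * (act c R y).card := by
  refine ⟨Upd.nc c A, fun z => f (A ∪ z), Upd.nr c r R A, Upd.isMob c f hm A, fun z => h01 _,
    (Upd.supp c A).trans hr, filter_subset _ _, Upd.card_nr c r hr1 hr R A, ?_, ?_⟩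
  · intro x hx y hAy
    have hAx : A ⊆ x := (mem_filter.1 hx).2.1
    change f (x ∩ y) = f (A ∪ (x ∩ y))
    rw [union_eq_right.2 (subset_inter hAx hAy)]
  · intro y J hAy hJ
    have h1 := Upd.potential c r R A y hAy
    set a := (act (Upd.nc c A) (Upd.nr c r R A) y).card
    set b := (bad (act c R y) R (2 * r) A).card
    set g := (act c R y).card
    rw [Nat.sub_mul, one_mul]
    have h2 : 2 * J * (2 * a + b) ≤ 2 * J * (2 * g) := Nat.mul_le_mul_left _ h1
    have h3 : 2 * J * (2 * a + b) = 4 * J * a + 2 * J * b := by ring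
    have h4 : 2 * J * (2 * g) = 4 * J * g := by ring
    rw [h3, h4] at h2
    omega

end Pool.Agent.Helper25.Meet
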