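import Mathlib
import Pool.Agent.Helper25.Meet.Defs
set_option autoImplicit false

/-!
# The linear coefficient of a bounded polynomial, and the sensitivity lemma
-/

namespace Pool.Agent.Helper25.Meet

open Polynomial

theorem sum_inv_sq_le (n : ℕ) : ∑ i ∈ Finset.range n, 1 / ((i : ℝ) + 1) ^ 2 ≤ 2 := by
  have h : ∀ n : ℕ, ∑ i ∈ Finset.range (n + 1), 1 / ((i : ℝ) + 1) ^ 2 ≤ 2 - 1 / ((n : ℝ) + 1) := by
    intro n
    induction n with
    | zero => norm_num
    | succ n ih =>
      rw [Finset.sum_range_succ]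
      have h1 : 1 / (((n + 1 : ℕ) : ℝ) + 1) ^ 2 ≤ 1 / ((n : ℝ) + 1) - 1 / (((n + 1 : ℕ) : ℝ) + 1) := by
        push_cast
        rw [div_sub_div _ _ (by positivity) (by positivity), div_le_div_iff₀ (by positivity) (by positivity)]
        nlinarith [(Nat.cast_nonneg n : (0 : ℝ) ≤ n)]
      linarith
  cases n with
  | zero => norm_num
  | succ n =>
    have := h n
    have h2 : 0 < 1 / ((n : ℝ) + 1) := by positivity
    linarith

theorem coeff_one_le (p : ℝ[X]) (d : ℕ) (hd : p.natDegree ≤ d) (h0 : p.coeff 0 = 0)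
    (hp : ∀ x : ℝ, 0 ≤ x → x ≤ 1 → |p.eval x| ≤ 1) : p.coeff 1 ≤ 4 * (d : ℝ) ^ 2 := by
  rcases Nat.eq_zero_or_pos d with rfl | hdpos
  · have : p.coeff 1 = 0 := coeff_eq_zero_of_natDegree_lt (by omega)
    rw [this]; positivity
  have hdq : (0 : ℝ) < d := by exact_mod_cast hdpos
  set R := p.divX with hR
  have hRp : ∀ x : ℝ, p.eval x = x * R.eval x := by
    intro x
    have := congrArg (eval x) (divX_mul_X_add p)
    rw [← this]; simp [h0, hR, mul_comm]
  have hR0 : R.eval 0 = p.coeff 1 := by
    rw [← coeff_zero_eq_eval_zero, hR, coeff_divX]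
  have hRdeg : R.natDegree ≤ d - 1 := by
    rw [hR, natDegree_divX_eq_natDegree_tsub_one]; omega
  set q : ℝ[X] := R.comp (C (1 / (d : ℝ) ^ 2) * (X - C (d : ℝ)) ^ 2) with hq
  have hqdeg : q.natDegree < 2 * d := by
    have h1 : (C (1 / (d : ℝ) ^ 2) * (X - C (d : ℝ)) ^ 2).natDegree ≤ 2 := by
      refine (natDegree_C_mul_le _ _).trans ?_
      rw [natDegree_pow, natDegree_X_sub_C]
    have h2 : q.natDegree ≤ (d - 1) * 2 := by
      rw [hq]
      refine natDegree_comp_le.trans ?_
      exact Nat.mul_le_mul hRdeg h1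
    omega
  have hev : ∀ k : ℕ, q.eval (k : ℝ) = R.eval (((k : ℝ) - d) ^ 2 / (d : ℝ) ^ 2) := by
    intro k
    rw [hq, eval_comp]; congr 1; simp; ring
  have hdiff := congrFun (Polynomial.fwdDiff_iter_eq_zero_of_degree_lt hqdeg) (0 : ℝ)
  rw [fwdDiff_iter_eq_sum_shift, Pi.zero_apply] at hdiff
  have hsplit : 2 * d + 1 = d + (1 + d) := by ring
  have habs : ∀ k : ℕ, k ≤ 2 * d → k ≠ d → |q.eval (k : ℝ)| ≤ (d : ℝ) ^ 2 / ((k : ℝ) - d) ^ 2 := by
    intro k hk hkd
    rw [hev]
    have hne : ((k : ℝ) - d) ≠ 0 := by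
      intro h; apply hkd; have : (k : ℝ) = d := by linarith
      exact_mod_cast this
    have hsq : 0 < ((k : ℝ) - d) ^ 2 := by positivity
    set x := ((k : ℝ) - d) ^ 2 / (d : ℝ) ^ 2 with hx
    have hxpos : 0 < x := by positivity
    have hx1 : x ≤ 1 := by
      rw [hx, div_le_one (by positivity)]
      apply sq_le_sq'
      · have : (0 : ℝ) ≤ k := Nat.cast_nonneg k
        linarith
      · have : (k : ℝ) ≤ 2 * d := by exact_mod_cast hk
        linarith
    have h1 := hp x hxpos.le hx1
    rw [hRp x, abs_mul, abs_of_pos hxpos] at h1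
    have h2 : |R.eval x| ≤ 1 / x := by
      rw [le_div_iff₀ hxpos]; linarith
    refine h2.trans (le_of_eq ?_)
    rw [hx, one_div_div]
  -- triangle inequality
  set c : ℕ → ℝ := fun k => ((-1 : ℤ) ^ (2 * d - k) * ((2 * d).choose k : ℤ) : ℤ) with hc
  have hcabs : ∀ k, |c k| ≤ (2 * d).choose d := by
    intro k
    simp only [hc]
    push_cast
    rw [abs_mul, abs_pow, abs_neg, abs_one, one_pow, one_mul, abs_of_nonneg (by positivity)]
    exact_mod_cast Nat.choose_le_centralBinom k d
  have hcd : |c d| = (2 * d).choose d := by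
    simp only [hc]
    push_cast
    rw [abs_mul, abs_pow, abs_neg, abs_one, one_pow, one_mul, abs_of_nonneg (by positivity)]
  have hsum : ∑ k ∈ Finset.range (2 * d + 1), c k * q.eval (k : ℝ) = 0 := by
    rw [← hdiff]
    apply Finset.sum_congr rfl
    intro k _
    simp [hc]
  rw [hsplit, Finset.sum_range_add, Finset.sum_range_add] at hsum
  simp only [Finset.sum_range_one, add_zero] at hsum
  have hmid : q.eval ((d : ℕ) : ℝ) = p.coeff 1 := by
    rw [hev, sub_self]; simp [hR0]
  rw [hmid] at hsum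
  have hchoose : (0 : ℝ) < (2 * d).choose d := by
    exact_mod_cast Nat.choose_pos (by omega)
  -- bound for the two side sums
  have hA : |∑ k ∈ Finset.range d, c k * q.eval (k : ℝ)| ≤ (2 * d).choose d * ((d : ℝ) ^ 2 * 2) := by
    refine (Finset.abs_sum_le_sum_abs _ _).trans ?_
    have : ∀ k ∈ Finset.range d, |c k * q.eval (k : ℝ)| ≤
        (2 * d).choose d * ((d : ℝ) ^ 2 * (1 / (((d - 1 - k : ℕ) : ℝ) + 1) ^ 2)) := by
      intro k hk
      rw [Finset.mem_range] at hk
      rw [abs_mul]
      apply mul_le_mul (hcabs k) _ (abs_nonneg _) hchoose.le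
      refine (habs k (by omega) (by omega)).trans (le_of_eq ?_)
      have h3 : (((d - 1 - k : ℕ) : ℝ) + 1) = d - k := by
        have : d - 1 - k + 1 = d - k := by omega
        have h4 : ((d - 1 - k + 1 : ℕ) : ℝ) = ((d - k : ℕ) : ℝ) := by rw [this]
        rw [Nat.cast_sub hk.le] at h4
        push_cast at h4
        exact h4
      rw [h3]; ring
    refine (Finset.sum_le_sum this).trans ?_
    rw [← Finset.mul_sum, ← Finset.mul_sum]
    apply mul_le_mul_of_nonneg_left _ hchoose.le
    apply mul_le_mul_of_nonneg_left _ (by positivity)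
    rw [Finset.sum_range_reflect (fun i => 1 / ((i : ℝ) + 1) ^ 2) d]
    exact sum_inv_sq_le d
  have hB : |∑ k ∈ Finset.range d, c (d + (1 + k)) * q.eval (((d + (1 + k) : ℕ)) : ℝ)| ≤
      (2 * d).choose d * ((d : ℝ) ^ 2 * 2) := by
    refine (Finset.abs_sum_le_sum_abs _ _).trans ?_
    have : ∀ k ∈ Finset.range d, |c (d + (1 + k)) * q.eval (((d + (1 + k) : ℕ)) : ℝ)| ≤
        (2 * d).choose d * ((d : ℝ) ^ 2 * (1 / ((k : ℝ) + 1) ^ 2)) := by
      intro k hk
      rw [Finset.mem_range] at hk
      rw [abs_mul]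
      apply mul_le_mul (hcabs _) _ (abs_nonneg _) hchoose.le
      refine (habs _ (by omega) (by omega)).trans (le_of_eq ?_)
      push_cast
      have : ((d : ℝ) + (1 + k) - d) = k + 1 := by ring
      rw [this]; ring
    refine (Finset.sum_le_sum this).trans ?_
    rw [← Finset.mul_sum, ← Finset.mul_sum]
    apply mul_le_mul_of_nonneg_left _ hchoose.le
    apply mul_le_mul_of_nonneg_left _ (by positivity)
    exact sum_inv_sq_le d
  have hfin : |c d * p.coeff 1| ≤ (2 * d).choose d * (4 * (d : ℝ) ^ 2) := by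
    have h5 : c d * p.coeff 1 = -(∑ k ∈ Finset.range d, c k * q.eval (k : ℝ)) -
        ∑ k ∈ Finset.range d, c (d + (1 + k)) * q.eval (((d + (1 + k) : ℕ)) : ℝ) := by
      linarith
    rw [h5]
    refine (abs_sub _ _).trans ?_
    rw [abs_neg]
    linarith
  rw [abs_mul, hcd] at hfin
  have := le_of_mul_le_mul_left hfin hchoose
  exact (le_abs_self _).trans this



section Sens
open Finset

variable {J : Type*} [Fintype J] [DecidableEq J]

theorem sum_Icc_pow {T K : Finset J} (h : T ⊆ K) (t : ℝ) :
    ∑ W ∈ K.powerset.filter (fun W => T ⊆ W), t ^ W.card * (1 - t) ^ (K.card - W.card) =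
      t ^ T.card := by
  have h1 : K.powerset.filter (fun W => T ⊆ W) = (K \ T).powerset.image (T ∪ ·) := by
    ext W
    simp only [mem_filter, mem_powerset, mem_image]
    constructor
    · rintro ⟨h1, h2⟩
      refine ⟨W \ T, sdiff_subset_sdiff h1 subset_rfl, ?_⟩
      exact union_sdiff_of_subset h2
    · rintro ⟨U, hU, rfl⟩
      refine ⟨union_subset h (hU.trans sdiff_subset), subset_union_left⟩
  rw [h1, sum_image]
  · have h2 : ∀ U ∈ (K \ T).powerset, t ^ (T ∪ U).card * (1 - t) ^ (K.card - (T ∪ U).card) =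
        t ^ T.card * (t ^ U.card * (1 - t) ^ ((K \ T).card - U.card)) := by
      intro U hU
      rw [mem_powerset] at hU
      have hd : Disjoint T U := by
        rw [disjoint_left]
        intro a ha ha'
        exact (mem_sdiff.1 (hU ha')).2 ha
      rw [card_union_of_disjoint hd, card_sdiff_of_subset h, pow_add, Nat.sub_sub]
      ring
    rw [sum_congr rfl h2, ← mul_sum, sum_pow_mul_eq_add_pow]
    simp
  · intro U hU U' hU' hUU
    simp only [coe_powerset, Set.mem_preimage, Set.mem_powerset_iff, coe_subset] at hU hU'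
    have hd : ∀ U : Finset J, U ⊆ K \ T → (T ∪ U) \ T = U := by
      intro U hU
      rw [union_sdiff_left, Finset.sdiff_eq_self_iff_disjoint, disjoint_left]
      intro a ha ha'
      exact (mem_sdiff.1 (hU ha)).2 ha'
    have := congrArg (· \ T) hUU
    simp only at this
    rwa [hd U hU, hd U' hU'] at this

theorem exists_good_set (d : Finset J → ℝ) (r : ℕ)
    (hr : (univ.filter (fun S => d S ≠ 0)).card ≤ r) :
    ∃ K : Finset J, Fintype.card J ≤ 2 * K.card ∧
      ∀ W, d W ≠ 0 → W ⊆ K → W.card ≤ Nat.log 2 r + 1 := by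
  classical
  by_contra hcon
  push Not at hcon
  set n := Fintype.card J with hn
  set A : Finset (Finset J) := univ.filter (fun K => n ≤ 2 * K.card) with hA
  have h1 : (Aᶜ).card ≤ A.card := by
    apply card_le_card_of_injOn (fun K => Kᶜ)
    · intro K hK
      simp only [hA, coe_compl, coe_filter, mem_univ, true_and, Set.mem_compl_iff,
        Set.mem_ofPred_eq, not_le] at hK ⊢
      rw [card_compl]; omega
    · intro K _ K' _ h
      exact compl_injective h
  have h2 : A.card + (Aᶜ).card = 2 ^ n := by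
    rw [card_add_card_compl, Fintype.card_finset]
  have h3 : A ⊆ (univ.filter (fun S => d S ≠ 0 ∧ Nat.log 2 r + 2 ≤ S.card)).biUnion
      (fun W => Icc W univ) := by
    intro K hK
    obtain ⟨W, hW1, hW2, hW3⟩ := hcon K (by simpa [hA] using hK)
    rw [mem_biUnion]
    exact ⟨W, by simpa using ⟨hW1, hW3⟩, by simpa using hW2⟩
  have h4 : A.card ≤ r * 2 ^ (n - (Nat.log 2 r + 2)) := by
    refine (card_le_card h3).trans ?_
    refine (card_biUnion_le_card_mul _ _ (2 ^ (n - (Nat.log 2 r + 2))) ?_).trans ?_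
    · intro W hW
      rw [mem_filter] at hW
      rw [card_Icc_finset (subset_univ _), card_univ]
      apply Nat.pow_le_pow_right (by norm_num)
      have := hW.2.2
      omega
    · apply Nat.mul_le_mul_right
      refine le_trans (card_le_card ?_) hr
      intro S hS
      simp only [mem_filter, mem_univ, true_and] at hS ⊢
      exact hS.1
  by_cases hnl : Nat.log 2 r + 2 ≤ n
  · have h5 : r < 2 ^ (Nat.log 2 r + 1) := Nat.lt_pow_succ_log_self (by norm_num) r
    have h6 : 2 * (r * 2 ^ (n - (Nat.log 2 r + 2))) < 2 ^ n := by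
      calc 2 * (r * 2 ^ (n - (Nat.log 2 r + 2)))
          < 2 * (2 ^ (Nat.log 2 r + 1) * 2 ^ (n - (Nat.log 2 r + 2))) := by
            have : 0 < 2 ^ (n - (Nat.log 2 r + 2)) := by positivity
            nlinarith
        _ = 2 ^ (1 + (Nat.log 2 r + 1) + (n - (Nat.log 2 r + 2))) := by
            rw [pow_add, pow_add]; ring
        _ = 2 ^ n := by congr 1; omega
    omega
  · obtain ⟨W, hW1, hW2, hW3⟩ := hcon univ (by rw [card_univ]; omega)
    have := card_le_card hW2
    rw [card_univ] at this
    omega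

/-- SENSITIVITY: a Boolean function with few monomials is sensitive at the empty set to few
variables. -/
theorem sensitivity (d h : Finset J → ℝ) (hm : IsMob d h)
    (h01 : ∀ z, h z = 0 ∨ h z = 1) (r : ℕ) (hr : (univ.filter (fun S => d S ≠ 0)).card ≤ r)
    (hs : ∀ i, h {i} ≠ h ∅) : Fintype.card J ≤ 8 * (Nat.log 2 r + 1) ^ 2 := by
  classical
  obtain ⟨K, hK1, hK2⟩ := exists_good_set d r hr
  set D := Nat.log 2 r + 1 with hD
  -- the polynomial
  set p : ℝ[X] := ∑ T ∈ K.powerset, C (d T) * X ^ T.card with hp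
  have hpev : ∀ t : ℝ, p.eval t = ∑ W ∈ K.powerset, h W * (t ^ W.card * (1 - t) ^ (K.card - W.card)) := by
    intro t
    have e1 : ∀ W ∈ K.powerset, h W * (t ^ W.card * (1 - t) ^ (K.card - W.card)) =
        ∑ T ∈ W.powerset, d T * (t ^ W.card * (1 - t) ^ (K.card - W.card)) := by
      intro W _
      rw [hm W, sum_mul]
    rw [sum_congr rfl e1, hp, eval_finsetSum]
    rw [sum_comm' (t' := K.powerset) (s' := fun T => K.powerset.filter (fun W => T ⊆ W))]
    · apply sum_congr rfl
      intro T hT
      rw [← mul_sum, sum_Icc_pow (mem_powerset.1 hT)]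
      simp
    · intro W T
      simp only [mem_powerset, mem_filter]
      constructor
      · rintro ⟨h1, h2⟩; exact ⟨⟨h1, h2⟩, h2.trans h1⟩
      · rintro ⟨⟨h1, h2⟩, h3⟩; exact ⟨h1, h2⟩
  have hbd : ∀ z, 0 ≤ h z ∧ h z ≤ 1 := by
    intro z
    rcases h01 z with h | h <;> rw [h] <;> norm_num
  have hone : ∀ t : ℝ, ∑ W ∈ K.powerset, (t ^ W.card * (1 - t) ^ (K.card - W.card)) = 1 := by
    intro t
    rw [sum_pow_mul_eq_add_pow]; simp
  have hrange : ∀ t : ℝ, 0 ≤ t → t ≤ 1 → 0 ≤ p.eval t ∧ p.eval t ≤ 1 := by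
    intro t h0 h1
    rw [hpev]
    have hnn : ∀ W : Finset J, 0 ≤ t ^ W.card * (1 - t) ^ (K.card - W.card) := by
      intro W
      have : 0 ≤ 1 - t := by linarith
      positivity
    constructor
    · apply sum_nonneg
      intro W _
      exact mul_nonneg (hbd W).1 (hnn W)
    · refine le_trans (sum_le_sum (g := fun W => t ^ W.card * (1 - t) ^ (K.card - W.card)) ?_)
        (hone t).le
      intro W _
      exact mul_le_of_le_one_left (hnn W) (hbd W).2
  have hdeg : p.natDegree ≤ D := by
    rw [hp]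
    apply natDegree_sum_le_of_forall_le
    intro T hT
    by_cases hdT : d T = 0
    · rw [hdT]; simp
    · exact (natDegree_C_mul_X_pow_le _ _).trans (hK2 T hdT (mem_powerset.1 hT))
  have hd0 : d ∅ = h ∅ := by rw [hm ∅]; simp
  have hd1 : ∀ i, d {i} = h {i} - h ∅ := by
    intro i
    have : h {i} = d ∅ + d {i} := by
      rw [hm {i}]
      rw [show ({i} : Finset J).powerset = {∅, {i}} by
        ext W; simp [subset_singleton_iff]]
      rw [sum_pair]
      exact (singleton_ne_empty i).symm
    rw [this, hd0]; ring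
  have hc0 : p.coeff 0 = h ∅ := by
    rw [hp, finsetSum_coeff]
    rw [sum_eq_single ∅]
    · simp [hd0]
    · intro T _ hT
      rw [coeff_C_mul, coeff_X_pow, if_neg, mul_zero]
      intro hc
      exact hT (card_eq_zero.1 hc.symm)
    · intro hT; exact absurd (mem_powerset.2 (empty_subset _)) hT
  have hc1 : p.coeff 1 = ∑ i ∈ K, (h {i} - h ∅) := by
    rw [hp, finsetSum_coeff]
    have e2 : ∀ T ∈ K.powerset, (C (d T) * X ^ T.card).coeff 1 = if T.card = 1 then d T else 0 := by
      intro T _
      rw [coeff_C_mul, coeff_X_pow]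
      by_cases hT : T.card = 1
      · rw [if_pos hT.symm, if_pos hT, mul_one]
      · rw [if_neg (fun h => hT h.symm), if_neg hT, mul_zero]
    rw [sum_congr rfl e2, ← sum_filter]
    have e3 : K.powerset.filter (fun T => T.card = 1) = K.image (fun i => ({i} : Finset J)) := by
      ext T
      simp only [mem_filter, mem_powerset, mem_image]
      constructor
      · rintro ⟨h1, h2⟩
        obtain ⟨i, rfl⟩ := card_eq_one.1 h2
        exact ⟨i, h1 (mem_singleton_self i), rfl⟩
      · rintro ⟨i, hi, rfl⟩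
        exact ⟨singleton_subset_iff.2 hi, card_singleton i⟩
    rw [e3, sum_image]
    · exact sum_congr rfl (fun i _ => hd1 i)
    · intro i _ j _ hij
      exact singleton_injective hij
  -- conclusion
  have key : (K.card : ℝ) ≤ 4 * (D : ℝ) ^ 2 := by
    have hp1deg : (p - C (h ∅)).natDegree ≤ D := by
      refine (natDegree_sub_le _ _).trans ?_
      rw [natDegree_C]; exact max_le hdeg (Nat.zero_le _)
    rcases h01 ∅ with h0 | h0
    · have := coeff_one_le (p - C (h ∅)) D hp1deg (by simp [hc0]) (by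
        intro x hx0 hx1
        have := hrange x hx0 hx1
        rw [eval_sub, eval_C, h0, sub_zero, abs_le]
        constructor <;> linarith)
      rw [coeff_sub, coeff_C, if_neg (by norm_num), sub_zero, hc1] at this
      have e4 : ∑ i ∈ K, (h {i} - h ∅) = K.card := by
        rw [sum_congr rfl (g := fun _ => (1 : ℝ))]
        · simp
        · intro i _
          rcases h01 {i} with h1 | h1
          · exact absurd (h1.trans h0.symm) (hs i)
          · rw [h1, h0]; norm_num
      rw [e4] at this
      exact this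
    · have := coeff_one_le (-(p - C (h ∅))) D (by rw [natDegree_neg]; exact hp1deg)
        (by simp [hc0]) (by
        intro x hx0 hx1
        have := hrange x hx0 hx1
        rw [eval_neg, eval_sub, eval_C, h0, abs_le]
        constructor <;> linarith)
      rw [coeff_neg, coeff_sub, coeff_C, if_neg (by norm_num), sub_zero, hc1] at this
      have e4 : ∑ i ∈ K, (h {i} - h ∅) = -K.card := by
        rw [sum_congr rfl (g := fun _ => (-1 : ℝ))]
        · simp
        · intro i _
          rcases h01 {i} with h1 | h1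
          · rw [h1, h0]; norm_num
          · exact absurd (h1.trans h0.symm) (hs i)
      rw [e4, neg_neg] at this
      exact this
  have key' : K.card ≤ 4 * D ^ 2 := by exact_mod_cast key
  omega

end Sens

end Pool.Agent.Helper25.Meet
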