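import Mathlib
import Pool.Agent.Helper25.Meet.Poly
set_option autoImplicit false

/-!
# The key lemma: few monomials with private parts
-/

namespace Pool.Agent.Helper25.Meet

open Finset

variable {I : Type*} [Fintype I] [DecidableEq I]

omit [Fintype I] in
theorem sdiff_sub_iff {a b c : Finset I} : a \ b ⊆ c ↔ a ⊆ b ∪ c := by
  constructor
  · intro h m hm
    rw [mem_union]
    by_cases hb : m ∈ b
    · exact Or.inl hb
    · exact Or.inr (h (mem_sdiff.2 ⟨hm, hb⟩))
  · intro h m hm
    rw [mem_sdiff] at hm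
    rcases mem_union.1 (h hm.1) with h1 | h1
    · exact absurd h1 hm.2
    · exact h1

/-- restriction to `Z = 1` -/
theorem sum_restrict {c f : Finset I → ℝ} (hm : IsMob c f) (Z V : Finset I) (_hd : Disjoint V Z) :
    f (Z ∪ V) = ∑ W ∈ V.powerset, ∑ T ∈ univ.filter (fun T => T \ Z = W), c T := by
  rw [hm (Z ∪ V)]
  rw [← sum_fiberwise_of_maps_to (s := (Z ∪ V).powerset) (t := V.powerset) (g := fun T => T \ Z)]
  · apply sum_congr rfl
    intro W hW
    apply sum_congr _ (fun _ _ => rfl)
    ext T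
    simp only [mem_filter, mem_powerset, mem_univ, true_and, and_iff_right_iff_imp]
    intro hT
    rw [← hT, mem_powerset] at hW
    exact sdiff_sub_iff.1 hW
  · intro T hT
    rw [mem_powerset] at hT ⊢
    exact sdiff_sub_iff.2 hT

theorem key (c f : Finset I → ℝ) (hm : IsMob c f)
    (h01 : ∀ z, f z = 0 ∨ f z = 1) (r : ℕ) (hr : (univ.filter (fun S => c S ≠ 0)).card ≤ r)
    (J : ℕ) (S : Fin J → Finset I) (hS : ∀ i, c (S i) ≠ 0)
    (hA : ∀ i, ¬ S i ⊆ (univ.erase i).biUnion S)
    (hB : ∀ i T, c T ≠ 0 →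
      T \ (univ.erase i).biUnion S = S i \ (univ.erase i).biUnion S → T = S i) :
    J ≤ 8 * (Nat.log 2 r + 1) ^ 2 := by
  classical
  obtain ⟨A, hAdef⟩ : ∃ A : Fin J → Finset I, ∀ i, A i = (univ.erase i).biUnion S := ⟨_, fun _ => rfl⟩
  simp only [← hAdef] at hA hB
  have hAmem : ∀ i m, m ∈ A i ↔ ∃ l, l ≠ i ∧ m ∈ S l := by
    intro i m; rw [hAdef]; simp
  obtain ⟨Z, hZ⟩ : ∃ Z : Finset I, ∀ m, m ∈ Z ↔ ∃ a b, a ≠ b ∧ m ∈ S a ∧ m ∈ S b :=
    ⟨univ.filter (fun m => ∃ a b, a ≠ b ∧ m ∈ S a ∧ m ∈ S b), fun m => by simp⟩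
  have hZA : ∀ i, Z ⊆ A i := by
    intro i m hm'
    obtain ⟨a, b, hab, ha, hb⟩ := (hZ m).1 hm'
    rw [hAmem]
    by_cases hai : a = i
    · exact ⟨b, fun hbi => hab (hai.trans hbi.symm), hb⟩
    · exact ⟨a, hai, ha⟩
  have hSZ : ∀ i, S i \ Z = S i \ A i := by
    intro i
    ext m
    simp only [mem_sdiff]
    constructor
    · rintro ⟨h1, h2⟩
      refine ⟨h1, fun h3 => h2 ?_⟩
      obtain ⟨l, hl, hml⟩ := (hAmem i m).1 h3
      exact (hZ m).2 ⟨l, i, hl, hml, h1⟩
    · rintro ⟨h1, h2⟩
      exact ⟨h1, fun h3 => h2 (hZA i h3)⟩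
  -- flipping sets
  have hu : ∀ i, ∃ u ⊆ S i \ A i, f (Z ∪ u) ≠ f Z := by
    intro i
    by_contra hcon
    push Not at hcon
    have hdis : ∀ V ⊆ S i \ A i, Disjoint V Z := by
      intro V hV
      rw [disjoint_left]
      intro m hmV hmZ
      exact (mem_sdiff.1 (hV hmV)).2 (hZA i hmZ)
    have he : ∀ V ⊆ S i \ A i, V ≠ ∅ → ∑ T ∈ univ.filter (fun T => T \ Z = V), c T = 0 := by
      intro V
      induction V using Finset.strongInduction with
      | H V ih =>
        intro hV hne
        have h1 := sum_restrict hm Z V (hdis V hV)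
        have h2 := sum_restrict hm Z ∅ (disjoint_empty_left _)
        rw [hcon V hV] at h1
        rw [union_empty, powerset_empty, sum_singleton] at h2
        rw [sum_eq_add ∅ V hne.symm] at h1
        · rw [h2] at h1
          linarith
        · intro W hW hWne
          have hWV : W ⊂ V := by
            rw [ssubset_iff_subset_ne]
            exact ⟨mem_powerset.1 hW, hWne.2⟩
          exact ih W hWV (hWV.subset.trans hV) hWne.1
        · intro h; exact absurd (mem_powerset.2 (empty_subset _)) h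
        · intro h; exact absurd (mem_powerset.2 (Subset.refl _)) h
    have h3 := he (S i \ A i) (Subset.refl _) (fun h => hA i (sdiff_eq_empty_iff_subset.1 h))
    rw [sum_eq_single (S i)] at h3
    · exact hS i h3
    · intro T hT hTS
      by_contra hcT
      apply hTS
      apply hB i T hcT
      have hT' : T \ Z = S i \ A i := by simpa using hT
      ext m
      simp only [mem_sdiff]
      constructor
      · rintro ⟨h4, h5⟩
        have : m ∈ T \ Z := mem_sdiff.2 ⟨h4, fun h => h5 (hZA i h)⟩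
        rw [hT'] at this
        exact mem_sdiff.1 this
      · intro h4
        have : m ∈ T \ Z := by rw [hT']; exact mem_sdiff.2 h4
        exact ⟨(mem_sdiff.1 this).1, h4.2⟩
    · intro h
      exact (h (mem_filter.2 ⟨mem_univ _, hSZ i⟩)).elim
  choose u hu1 hu2 using hu
  have hudis : ∀ i j m, m ∈ u i → m ∈ u j → i = j := by
    intro i j m hi hj
    by_contra hij
    have h1 := mem_sdiff.1 (hu1 i hi)
    have h2 := mem_sdiff.1 (hu1 j hj)
    exact h1.2 ((hAmem i m).2 ⟨j, fun h => hij h.symm, h2.1⟩)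
  have huZ : ∀ i m, m ∈ u i → m ∉ Z := by
    intro i m hi hZm
    exact (mem_sdiff.1 (hu1 i hi)).2 (hZA i hZm)
  -- the function on the cube of the blocks
  set U : Finset I := univ.biUnion u with hU
  set τ : Finset I → Finset (Fin J) := fun T => univ.filter (fun i => ∃ m ∈ u i, m ∈ T) with hτ
  set h : Finset (Fin J) → ℝ := fun W => f (Z ∪ W.biUnion u) with hh
  set d : Finset (Fin J) → ℝ :=
    fun W => ∑ T ∈ univ.filter (fun T => T \ Z ⊆ U ∧ τ T = W), c T with hd
  have hmob : IsMob d h := by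
    intro W
    simp only [hh, hd]
    rw [hm (Z ∪ W.biUnion u)]
    rw [← sum_fiberwise_of_maps_to (s := (Z ∪ W.biUnion u).powerset) (t := W.powerset)
      (g := τ)]
    · apply sum_congr rfl
      intro W' hW'
      rw [mem_powerset] at hW'
      apply sum_congr _ (fun _ _ => rfl)
      ext T
      simp only [mem_filter, mem_powerset, mem_univ, true_and]
      constructor
      · rintro ⟨h1, h2⟩
        refine ⟨?_, h2⟩
        refine (sdiff_sub_iff.2 h1).trans ?_
        intro m hmm
        obtain ⟨i, _, hi⟩ := mem_biUnion.1 hmm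
        exact mem_biUnion.2 ⟨i, mem_univ _, hi⟩
      · rintro ⟨h1, h2⟩
        refine ⟨?_, h2⟩
        intro m hmT
        rw [mem_union]
        by_cases hmZ : m ∈ Z
        · exact Or.inl hmZ
        · right
          obtain ⟨i, _, hi⟩ := mem_biUnion.1 (h1 (mem_sdiff.2 ⟨hmT, hmZ⟩))
          refine mem_biUnion.2 ⟨i, hW' ?_, hi⟩
          rw [← h2]
          simp only [hτ, mem_filter, mem_univ, true_and]
          exact ⟨m, hi, hmT⟩
    · intro T hT
      rw [mem_powerset] at hT ⊢
      intro i hi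
      simp only [hτ, mem_filter, mem_univ, true_and] at hi
      obtain ⟨m, hmi, hmT⟩ := hi
      have := hT hmT
      rw [mem_union] at this
      rcases this with h1 | h1
      · exact absurd h1 (huZ i m hmi)
      · obtain ⟨j, hj, hmj⟩ := mem_biUnion.1 h1
        rw [hudis i j m hmi hmj]; exact hj
  have hsupp : (univ.filter (fun W => d W ≠ 0)).card ≤ r := by
    refine le_trans ?_ hr
    refine le_trans (card_le_card (t := (univ.filter (fun S => c S ≠ 0)).image τ) ?_) card_image_le
    intro W hW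
    rw [mem_filter] at hW
    obtain ⟨T, hT, hT2⟩ := exists_ne_zero_of_sum_ne_zero hW.2
    rw [mem_image]
    refine ⟨T, by simpa using hT2, ?_⟩
    exact (mem_filter.1 hT).2.2
  have hsens : ∀ i, h {i} ≠ h ∅ := by
    intro i
    simp only [hh]
    simpa using hu2 i
  have := sensitivity d h hmob (fun W => h01 _) r hsupp hsens
  simpa using this

end Pool.Agent.Helper25.Meet
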