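import Mathlib
import Pool.Agent.Helper25.Meet.Key
import Pool.Agent.Helper25.Meet.Move
import Pool.Agent.Helper25.Meet.Upd
set_option autoImplicit false

/-!
# Large constant rectangles
-/

namespace Pool.Agent.Helper25.Meet

open Finset

variable {I : Type*} [Fintype I] [DecidableEq I]

theorem exists_rect_aux (r J : ℕ) (hr1 : 1 ≤ r) (hJ : 8 * (Nat.log 2 r + 1) ^ 2 < J) :
    ∀ (T : ℕ) (c f : Finset I → ℝ), IsMob c f → (∀ z, f z = 0 ∨ f z = 1) →
      (univ.filter (fun S => c S ≠ 0)).card ≤ r →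
      ∀ (R C : Finset (Finset I)), R.Nonempty → C.Nonempty →
        (∀ y ∈ C, (act c R y).card * (4 * J - 1) ^ T < (4 * J) ^ T) →
        ∃ R' ⊆ R, ∃ C' ⊆ C, ∃ v : ℝ, R.card ≤ R'.card * ((2 * r) ^ (J + 1)) ^ T ∧
          C.card ≤ C'.card * ((2 * r) ^ (J + 1)) ^ T ∧ ∀ x ∈ R', ∀ y ∈ C', f (x ∩ y) = v := by
  classical
  intro T
  induction T with
  | zero =>
    intro c f hm h01 hr R C hR hC hact
    refine ⟨R, Subset.refl _, C, Subset.refl _, c ∅, by simp, by simp, ?_⟩
    intro x hx y hy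
    rw [hm (x ∩ y), sum_eq_single ∅]
    · intro S hS hS0
      by_contra hcS
      have h1 := hact y hy
      have h2 : act c R y = ∅ := by
        rw [← card_eq_zero]; simpa using h1
      have h3 : S ∈ act c R y := by
        rw [mem_powerset] at hS
        simp only [act, mem_filter, mem_univ, true_and]
        exact ⟨hS0, hcS, hS.trans inter_subset_right, x, hx, hS.trans inter_subset_left⟩
      rw [h2] at h3
      simp at h3
    · intro h; exact absurd (mem_powerset.2 (empty_subset _)) h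
  | succ T ih =>
    intro c f hm h01 hr R C hR hC hact
    have hJ0 : 1 ≤ J := by omega
    have hmove := fun y => exists_move c f hm h01 r hr (2 * r) J (by omega)
      (fun c' f' hm' h01' hr' S hS hA hB => by
        have := key c' f' hm' h01' r hr' J S hS hA hB
        omega) R hR y
    choose g hg1 hg2 hg3 using hmove
    set lab : Finset I → Finset I := fun y => univ.biUnion (g y) with hlab
    set supp : Finset (Finset I) := univ.filter (fun S => c S ≠ 0) with hsupp
    set Labels : Finset (Finset I) :=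
      (Fintype.piFinset (fun _ : Fin J => insert ∅ supp)).image (fun h => univ.biUnion h) with hLab
    have hLcard : Labels.card ≤ (2 * r) ^ J := by
      refine card_image_le.trans ?_
      rw [Fintype.card_piFinset]
      simp only [prod_const, card_univ, Fintype.card_fin]
      apply Nat.pow_le_pow_left
      refine (card_insert_le _ _).trans ?_
      omega
    have hmaps : ∀ y ∈ C, lab y ∈ Labels := by
      intro y _
      rw [hLab, mem_image]
      refine ⟨g y, ?_, rfl⟩
      rw [Fintype.mem_piFinset]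
      intro i
      rw [mem_insert]
      rcases hg1 y i with h | h
      · exact Or.inl h
      · right
        simp only [act, mem_filter, mem_univ, true_and] at h
        simp only [hsupp, mem_filter, mem_univ, true_and]
        exact h.2.1
    have hpig : ∃ A ∈ Labels, C.card ≤ (C.filter (fun y => lab y = A)).card * (2 * r) ^ J := by
      by_contra hcon
      push Not at hcon
      have h1 := card_eq_sum_card_fiberwise (f := lab) (s := C) (t := Labels) hmaps
      have hCpos : 0 < C.card := card_pos.2 hC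
      have hLne : Labels.Nonempty := by
        obtain ⟨y, hy⟩ := hC
        exact ⟨_, hmaps y hy⟩
      have h2 : C.card * (2 * r) ^ J < Labels.card * C.card := by
        calc C.card * (2 * r) ^ J = ∑ A ∈ Labels, (C.filter (fun y => lab y = A)).card * (2 * r) ^ J := by
              rw [← sum_mul, ← h1]
          _ < ∑ A ∈ Labels, C.card := sum_lt_sum_of_nonempty hLne hcon
          _ = Labels.card * C.card := by rw [sum_const, smul_eq_mul]
      have h3 : Labels.card * C.card ≤ (2 * r) ^ J * C.card := Nat.mul_le_mul_right _ hLcard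
      rw [mul_comm C.card] at h2
      omega
    obtain ⟨A, _, hA⟩ := hpig
    set C1 := C.filter (fun y => lab y = A) with hC1
    have hC1ne : C1.Nonempty := by
      rw [← card_pos]
      by_contra h0
      have : C1.card = 0 := by omega
      rw [this, zero_mul] at hA
      exact absurd (card_pos.2 hC) (by omega)
    have hC1mem : ∀ y ∈ C1, y ∈ C ∧ univ.biUnion (g y) = A := by
      intro y hy
      rw [hC1, mem_filter] at hy
      exact hy
    obtain ⟨c', f', R1, hm', h01', hr', hR1, hcnt, hff, hpot⟩ :=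
      exists_update c f hm h01 r hr1 hr R A
    have hAy : ∀ y ∈ C1, A ⊆ y := by
      intro y hy
      rw [← (hC1mem y hy).2]
      intro m hmm
      obtain ⟨i, _, hi⟩ := mem_biUnion.1 hmm
      rcases hg1 y i with h | h
      · rw [h] at hi; simp at hi
      · simp only [act, mem_filter, mem_univ, true_and] at h
        exact h.2.2.1 hi
    have hRcnt : R.card ≤ cnt R A * (2 * r) ^ J := by
      obtain ⟨y, hy⟩ := hC1ne
      have := hg2 y
      rw [(hC1mem y hy).2] at this
      exact this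
    have hRpos : 0 < R.card := card_pos.2 hR
    have hR1ne : R1.Nonempty := by
      rw [← card_pos]
      by_contra h0
      have h1 : R1.card = 0 := by omega
      have h2 : cnt R A = 0 := by omega
      rw [h2, zero_mul] at hRcnt
      omega
    have hpot' : ∀ y ∈ C1, (act c' R1 y).card * (4 * J - 1) ^ T < (4 * J) ^ T := by
      intro y hy
      have h1 := hpot y J (hAy y hy) (by
        have := hg3 y
        rw [(hC1mem y hy).2] at this
        exact this)
      have h2 := hact y (hC1mem y hy).1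
      rw [pow_succ, pow_succ] at h2
      have h3 : (4 * J) * ((act c' R1 y).card * (4 * J - 1) ^ T) < (4 * J) * (4 * J) ^ T := by
        calc (4 * J) * ((act c' R1 y).card * (4 * J - 1) ^ T)
            = (4 * J * (act c' R1 y).card) * (4 * J - 1) ^ T := by ring
          _ ≤ ((4 * J - 1) * (act c R y).card) * (4 * J - 1) ^ T := Nat.mul_le_mul_right _ h1
          _ = (act c R y).card * ((4 * J - 1) ^ T * (4 * J - 1)) := by ring
          _ < (4 * J) ^ T * (4 * J) := h2
          _ = (4 * J) * (4 * J) ^ T := by ring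
      exact lt_of_mul_lt_mul_left h3 (Nat.zero_le _)
    obtain ⟨R', hR'1, C', hC'1, v, h1, h2, h3⟩ :=
      ih c' f' hm' h01' hr' R1 C1 hR1ne hC1ne hpot'
    have h2r : 2 ≤ 2 * r := by omega
    refine ⟨R', hR'1.trans hR1, C', hC'1.trans (filter_subset _ _), v, ?_, ?_, ?_⟩
    · calc R.card ≤ cnt R A * (2 * r) ^ J := hRcnt
        _ ≤ (2 * R1.card) * (2 * r) ^ J := Nat.mul_le_mul_right _ hcnt
        _ ≤ ((2 * r) * R1.card) * (2 * r) ^ J :=
            Nat.mul_le_mul_right _ (Nat.mul_le_mul_right _ h2r)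
        _ = R1.card * (2 * r) ^ (J + 1) := by ring
        _ ≤ (R'.card * ((2 * r) ^ (J + 1)) ^ T) * (2 * r) ^ (J + 1) := Nat.mul_le_mul_right _ h1
        _ = R'.card * ((2 * r) ^ (J + 1)) ^ (T + 1) := by rw [pow_succ ((2 * r) ^ (J + 1)) T]; ring
    · calc C.card ≤ C1.card * (2 * r) ^ J := hA
        _ ≤ C1.card * (2 * r) ^ (J + 1) :=
            Nat.mul_le_mul_left _ (Nat.pow_le_pow_right (by omega) (by omega))
        _ ≤ (C'.card * ((2 * r) ^ (J + 1)) ^ T) * (2 * r) ^ (J + 1) := Nat.mul_le_mul_right _ h2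
        _ = C'.card * ((2 * r) ^ (J + 1)) ^ (T + 1) := by rw [pow_succ ((2 * r) ^ (J + 1)) T]; ring
    · intro x hx y hy
      rw [hff x (hR'1 hx) y (hAy y (hC'1 hy))]
      exact h3 x hx y hy

theorem two_mul_pow_le (n : ℕ) (hn : 1 ≤ n) : 2 * n ^ n ≤ (n + 1) ^ n := by
  have hn' : (0 : ℝ) < n := by exact_mod_cast hn
  have h := one_add_mul_le_pow (a := 1 / (n : ℝ)) (by
    have : (0 : ℝ) ≤ 1 / (n : ℝ) := by positivity
    linarith) n
  have h2 : (1 : ℝ) + n * (1 / (n : ℝ)) = 2 := by
    field_simp; norm_num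
  rw [h2] at h
  have h3 : (2 : ℝ) * (n : ℝ) ^ n ≤ ((n : ℝ) + 1) ^ n := by
    calc (2 : ℝ) * (n : ℝ) ^ n ≤ (1 + 1 / (n : ℝ)) ^ n * (n : ℝ) ^ n :=
          mul_le_mul_of_nonneg_right h (by positivity)
      _ = ((n : ℝ) + 1) ^ n := by
          rw [← mul_pow]; congr 1; field_simp
  exact_mod_cast h3

theorem start_potential (r n : ℕ) (hn : 1 ≤ n) :
    r * n ^ (n * (Nat.log 2 r + 1)) < (n + 1) ^ (n * (Nat.log 2 r + 1)) := by
  have h1 : r < 2 ^ (Nat.log 2 r + 1) := Nat.lt_pow_succ_log_self (by norm_num) r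
  calc r * n ^ (n * (Nat.log 2 r + 1))
      < 2 ^ (Nat.log 2 r + 1) * n ^ (n * (Nat.log 2 r + 1)) := by
        apply Nat.mul_lt_mul_of_pos_right h1
        positivity
    _ = (2 * n ^ n) ^ (Nat.log 2 r + 1) := by rw [mul_pow, pow_mul]
    _ ≤ ((n + 1) ^ n) ^ (Nat.log 2 r + 1) := Nat.pow_le_pow_left (two_mul_pow_le n hn) _
    _ = (n + 1) ^ (n * (Nat.log 2 r + 1)) := by rw [pow_mul]

/-- the density bound -/
def dens (r : ℕ) : ℕ :=
  ((2 * r) ^ (8 * (Nat.log 2 r + 1) ^ 2 + 2)) ^
    ((4 * (8 * (Nat.log 2 r + 1) ^ 2 + 1) - 1) * (Nat.log 2 r + 1))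

/-- LARGE CONSTANT RECTANGLES in every combinatorial rectangle of a meet function. -/
theorem exists_rect (r : ℕ) (hr1 : 1 ≤ r) (c f : Finset I → ℝ) (hm : IsMob c f)
    (h01 : ∀ z, f z = 0 ∨ f z = 1) (hr : (univ.filter (fun S => c S ≠ 0)).card ≤ r)
    (R C : Finset (Finset I)) (hR : R.Nonempty) (hC : C.Nonempty) :
    ∃ R' ⊆ R, ∃ C' ⊆ C, ∃ v : ℝ, R.card ≤ R'.card * dens r ∧
      C.card ≤ C'.card * dens r ∧ ∀ x ∈ R', ∀ y ∈ C', f (x ∩ y) = v := by
  classical
  set L := Nat.log 2 r + 1 with hL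
  have h := exists_rect_aux (I := I) r (8 * L ^ 2 + 1) hr1 (Nat.lt_succ_self _)
    ((4 * (8 * L ^ 2 + 1) - 1) * L) c f hm h01 hr R C hR hC (by
      intro y _
      have h1 : (act c R y).card ≤ r := by
        refine le_trans (card_le_card ?_) hr
        intro S hS
        simp only [act, mem_filter, mem_univ, true_and] at hS ⊢
        exact hS.2.1
      have h2 := start_potential r (4 * (8 * L ^ 2 + 1) - 1) (by omega)
      have h3 : 4 * (8 * L ^ 2 + 1) - 1 + 1 = 4 * (8 * L ^ 2 + 1) := by omega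
      rw [h3] at h2
      exact lt_of_le_of_lt (Nat.mul_le_mul_right _ h1) h2)
  exact h

theorem dens_le (r : ℕ) (hr1 : 1 ≤ r) : dens r ≤ 2 ^ (720 * (Nat.log 2 r + 1) ^ 6) := by
  set L := Nat.log 2 r + 1 with hL
  have hL1 : 1 ≤ L := by omega
  have h1 : 2 * r ≤ 2 ^ (L + 1) := by
    have : r < 2 ^ L := Nat.lt_pow_succ_log_self (by norm_num) r
    rw [pow_succ]; omega
  have h2 : dens r ≤ ((2 ^ (L + 1)) ^ (8 * L ^ 2 + 2)) ^ ((4 * (8 * L ^ 2 + 1) - 1) * L) := by
    unfold dens
    exact Nat.pow_le_pow_left (Nat.pow_le_pow_left h1 _) _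
  refine h2.trans ?_
  rw [← pow_mul, ← pow_mul]
  apply Nat.pow_le_pow_right (by norm_num)
  rw [← mul_assoc]
  have h3 : L + 1 ≤ 2 * L := by omega
  have hL2 : 1 ≤ L ^ 2 := Nat.one_le_pow _ _ hL1
  have h4 : 8 * L ^ 2 + 2 ≤ 10 * L ^ 2 := by omega
  have h5 : 4 * (8 * L ^ 2 + 1) - 1 ≤ 36 * L ^ 2 := by omega
  calc (L + 1) * (8 * L ^ 2 + 2) * ((4 * (8 * L ^ 2 + 1) - 1) * L)
      ≤ (2 * L) * (10 * L ^ 2) * ((36 * L ^ 2) * L) :=
        Nat.mul_le_mul (Nat.mul_le_mul h3 h4) (Nat.mul_le_mul_right _ h5)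
    _ = 720 * L ^ 6 := by ring

end Pool.Agent.Helper25.Meet
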