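import Pool.Agent.Helper25.Meet.Defs

/-!
# Meet functions on semilattices are sparse set functions
-/

set_option autoImplicit false

namespace Pool.Agent.Helper25.Meet

open Finset Matrix

namespace Latt

open Classical in
/-- Möbius inversion on a finite poset. -/
lemma exists_mob {L : Type*} [Fintype L] [PartialOrder L] (g : L → ℝ) :
    ∃ e : L → ℝ, ∀ a, g a = ∑ k ∈ univ.filter (fun k => k ≤ a), e k := by
  let e : L → ℝ := (wellFounded_lt (α := L)).fix
    (fun a ih => g a - ∑ k : {k : L // k < a}, ih k.1 k.2)
  refine ⟨e, fun a => ?_⟩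
  have h1 : e a = g a - ∑ k : {k : L // k < a}, e k.1 := by
    simp only [e]
    rw [WellFounded.fix_eq]
  have h2 : univ.filter (fun k : L => k ≤ a) = insert a (univ.filter (fun k : L => k < a)) := by
    ext k
    simp only [mem_filter, mem_univ, true_and, mem_insert]
    exact le_iff_eq_or_lt
  have h3 : a ∉ univ.filter (fun k : L => k < a) := by simp
  rw [h2, sum_insert h3, h1]
  have h4 : ∑ k : {k : L // k < a}, e k.1 = ∑ k ∈ univ.filter (fun k : L => k < a), e k :=
    (sum_subtype _ (fun x => by simp) _).symm
  rw [h4]
  ring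

open Classical in
/-- The zeta matrix. -/
noncomputable def zeta (L : Type*) [PartialOrder L] : Matrix L L ℝ :=
  Matrix.of fun k a => if k ≤ a then 1 else 0

lemma zeta_det {L : Type*} [Fintype L] [DecidableEq L] [PartialOrder L] :
    IsUnit (zeta L).det := by
  classical
  choose E hE using fun b : L => exists_mob (fun a : L => if a = b then (1 : ℝ) else 0)
  have h1 : (Matrix.of fun b k => E b k) * zeta L = 1 := by
    ext b a
    rw [mul_apply, one_apply]
    have h2 := hE b a
    rw [sum_filter] at h2
    have h3 : ∑ k, (Matrix.of fun b k => E b k) b k * zeta L k a = ∑ k, if k ≤ a then E b k else 0 := by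
      refine sum_congr rfl fun k _ => ?_
      simp only [zeta, of_apply]
      split_ifs <;> simp
    rw [h3, ← h2]
    simp only [eq_comm]
  exact isUnit_det_of_left_inverse h1

lemma card_le_rank {L : Type*} [Fintype L] [DecidableEq L] [SemilatticeInf L] (g e : L → ℝ)
    (he : ∀ a, g a = open Classical in ∑ k ∈ univ.filter (fun k => k ≤ a), e k) :
    (univ.filter (fun k => e k ≠ 0)).card ≤ (Matrix.of fun a b : L => g (a ⊓ b)).rank := by
  classical
  have h1 : (Matrix.of fun a b : L => g (a ⊓ b)) = (zeta L)ᵀ * (diagonal e * zeta L) := by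
    ext a b
    rw [of_apply, he, mul_apply, sum_filter]
    refine sum_congr rfl fun k _ => ?_
    rw [diagonal_mul]
    simp only [zeta, transpose_apply, of_apply, le_inf_iff]
    by_cases h1 : k ≤ a <;> by_cases h2 : k ≤ b <;> simp [h1, h2]
  rw [h1, rank_mul_eq_right_of_isUnit_det _ _ (by rw [det_transpose]; exact zeta_det),
    rank_mul_eq_left_of_isUnit_det _ _ zeta_det, rank_diagonal, Fintype.card_subtype]

end Latt

open Latt in
/-- Meet functions on finite semilattices are restrictions of functions of intersections of sets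
that have a sparse multilinear polynomial and take the values 0, 1 on all sets. -/
theorem exists_sparse_of_semilattice (L : Type*) [Fintype L] [DecidableEq L] [SemilatticeInf L]
    (g : L → ℝ) (hg : ∀ a, g a = 0 ∨ g a = 1) :
    ∃ (c f : Finset L → ℝ) (Z : L → Finset L), IsMob c f ∧ (∀ z, f z = 0 ∨ f z = 1) ∧
      (univ.filter (fun S => c S ≠ 0)).card ≤ (Matrix.of fun a b : L => g (a ⊓ b)).rank + 1 ∧
      Function.Injective Z ∧ ∀ a b, f (Z a ∩ Z b) = g (a ⊓ b) := by
  classical
  obtain ⟨e, he⟩ := exists_mob g
  let Z : L → Finset L := fun a => univ.filter (fun m => ¬ a ≤ m)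
  let c : Finset L → ℝ := fun S =>
    (∑ k ∈ univ.filter (fun k => Z k = S), e k) + if S = univ then - ∑ k, e k else 0
  let f : Finset L → ℝ := fun z => ∑ S ∈ z.powerset, c S
  have hZ : ∀ k m, m ∈ Z k ↔ ¬ k ≤ m := fun k m => by simp [Z]
  have hf : ∀ z, f z = (∑ k ∈ univ.filter (fun k => Z k ⊆ z), e k) +
      if z = univ then - ∑ k, e k else 0 := by
    intro z
    simp only [f, c, sum_add_distrib]
    congr 1
    · rw [sum_comm' (t' := univ.filter (fun k => Z k ⊆ z)) (s' := fun k => {Z k})]
      · simp
      · intro S k
        simp only [mem_powerset, mem_filter, mem_univ, true_and, mem_singleton]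
        constructor
        · rintro ⟨h1, h2⟩
          exact ⟨h2.symm, h2 ▸ h1⟩
        · rintro ⟨h1, h2⟩
          exact ⟨h1 ▸ h2, h1.symm⟩
    · rw [sum_ite_eq']
      simp only [mem_powerset, univ_subset_iff]
  have hne : ∀ z, z ≠ univ → ∀ m0, (∀ k, Z k ⊆ z ↔ k ≤ m0) → f z = g m0 := by
    intro z hz m0 hm
    rw [hf, if_neg hz, add_zero, he]
    refine sum_congr ?_ fun _ _ => rfl
    ext k
    simp only [mem_filter, mem_univ, true_and]
    exact hm k
  have hZinj : Function.Injective Z := by
    intro a b hab
    apply le_antisymm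
    · by_contra h
      have h1 : b ∈ Z a := (hZ a b).2 h
      rw [hab] at h1
      exact (hZ b b).1 h1 le_rfl
    · by_contra h
      have h1 : a ∈ Z b := (hZ b a).2 h
      rw [← hab] at h1
      exact (hZ a a).1 h1 le_rfl
  refine ⟨c, f, Z, fun z => rfl, fun z => ?_, ?_, hZinj, fun a b => ?_⟩
  · by_cases hz : z = univ
    · left
      rw [hf, if_pos hz]
      have : univ.filter (fun k => Z k ⊆ z) = univ := by
        refine filter_true_of_mem fun k _ => ?_
        rw [hz]
        exact subset_univ _
      rw [this, add_neg_cancel]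
    · have hcne : (zᶜ).Nonempty := by
        rw [nonempty_iff_ne_empty]
        intro h
        exact hz ((compl_eq_empty_iff z).1 h)
      have h1 := hne z hz ((zᶜ).inf' hcne id) (fun k => by
        rw [le_inf'_iff]
        constructor
        · intro h m hm
          by_contra hc
          exact (mem_compl.1 hm) (h ((hZ k m).2 hc))
        · intro h m hm
          by_contra hc
          exact (hZ k m).1 hm (h m (mem_compl.2 hc)))
      rw [h1]
      exact hg _
  · have h1 : univ.filter (fun S => c S ≠ 0) ⊆
        insert univ ((univ.filter (fun k => e k ≠ 0)).image Z) := by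
      intro S hS
      rw [mem_filter] at hS
      rw [mem_insert]
      by_cases hSu : S = univ
      · exact Or.inl hSu
      · right
        have h2 : ∑ k ∈ univ.filter (fun k => Z k = S), e k ≠ 0 := by
          have := hS.2
          simp only [c, if_neg hSu, add_zero] at this
          exact this
        obtain ⟨k, hk, hek⟩ := exists_ne_zero_of_sum_ne_zero h2
        rw [mem_filter] at hk
        exact mem_image.2 ⟨k, mem_filter.2 ⟨mem_univ _, hek⟩, hk.2⟩
    have h3 := card_le_rank g e he
    calc (univ.filter (fun S => c S ≠ 0)).card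
        ≤ (insert univ ((univ.filter (fun k => e k ≠ 0)).image Z)).card := card_le_card h1
      _ ≤ ((univ.filter (fun k => e k ≠ 0)).image Z).card + 1 := card_insert_le _ _
      _ ≤ (univ.filter (fun k => e k ≠ 0)).card + 1 := by
          exact Nat.add_le_add_right card_image_le _
      _ ≤ _ := Nat.add_le_add_right h3 _
  · refine hne _ ?_ _ fun k => ?_
    · intro h
      have h2 : a ∈ Z a ∩ Z b := by rw [h]; exact mem_univ _
      exact (hZ a a).1 (mem_inter.1 h2).1 le_rfl
    · rw [le_inf_iff]
      constructor
      · intro h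
        constructor
        · by_contra hc
          exact (hZ a a).1 (mem_inter.1 (h ((hZ k a).2 hc))).1 le_rfl
        · by_contra hc
          exact (hZ b b).1 (mem_inter.1 (h ((hZ k b).2 hc))).2 le_rfl
      · rintro ⟨h1, h2⟩ m hm
        have h3 := (hZ k m).1 hm
        rw [mem_inter]
        exact ⟨(hZ a m).2 fun h4 => h3 (h1.trans h4), (hZ b m).2 fun h4 => h3 (h2.trans h4)⟩

end Pool.Agent.Helper25.Meet
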