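import Mathlib
import Pool.Agent.Helper26.RankLib
set_option autoImplicit false
set_option linter.unusedSectionVars false

/-!
# Covering the zeros of a Boolean matrix of low rank by all-zero submatrices

If all submatrices of a Boolean matrix of rank at most `ρ` have large constant submatrices then the
zeros can be covered by few all-zero submatrices (Nisan-Wigderson recursion).
-/

namespace Pool.Agent.Helper25.Meet

open Finset Matrix

/-- block anti-triangular matrices -/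
theorem rank_add_rank_le_fromBlocks {m n p q : Type*} [Fintype m] [Fintype n] [Fintype p]
    [Fintype q] (B : Matrix m q ℝ) (D : Matrix p n ℝ) (E : Matrix p q ℝ) :
    B.rank + D.rank ≤ (fromBlocks 0 B D E).rank := by
  have h1 := LinearMap.finrank_range_add_finrank_ker B.mulVecLin
  have h2 := LinearMap.finrank_range_add_finrank_ker D.mulVecLin
  have h3 := LinearMap.finrank_range_add_finrank_ker (fromBlocks 0 B D E).mulVecLin
  rw [Matrix.rank, Matrix.rank, Matrix.rank]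
  simp only [Module.finrank_fintype_fun_eq_card] at h1 h2 h3
  rw [Fintype.card_sum] at h3
  -- the projection to the second coordinate
  let π : (n ⊕ q → ℝ) →ₗ[ℝ] (q → ℝ) := LinearMap.funLeft ℝ ℝ Sum.inr
  have hker : ∀ v ∈ LinearMap.ker (fromBlocks 0 B D E).mulVecLin,
      B *ᵥ (v ∘ Sum.inr) = 0 ∧ D *ᵥ (v ∘ Sum.inl) + E *ᵥ (v ∘ Sum.inr) = 0 := by
    intro v hv
    have hv' : (fromBlocks 0 B D E) *ᵥ v = 0 := hv
    rw [fromBlocks_mulVec] at hv'
    constructor
    · have := congrArg (fun f => f ∘ Sum.inl) hv'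
      simp only [Sum.elim_comp_inl] at this
      simpa using this
    · have := congrArg (fun f => f ∘ Sum.inr) hv'
      simp only [Sum.elim_comp_inr] at this
      simpa using this
  let S := LinearMap.ker (fromBlocks 0 B D E).mulVecLin
  let π' : S →ₗ[ℝ] LinearMap.ker B.mulVecLin :=
    LinearMap.codRestrict _ (π.comp (Submodule.subtype _)) fun v => (hker v.1 v.2).1
  have h5 := LinearMap.finrank_range_add_finrank_ker π'
  have h6 : Module.finrank ℝ (LinearMap.range π') ≤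
      Module.finrank ℝ (LinearMap.ker B.mulVecLin) := Submodule.finrank_le _
  have hk : ∀ v : LinearMap.ker π', (v : S).1 ∘ Sum.inr = 0 := by
    rintro ⟨v, hv⟩
    have hv' : π' v = 0 := hv
    exact congrArg Subtype.val hv'
  let ψ : LinearMap.ker π' →ₗ[ℝ] LinearMap.ker D.mulVecLin :=
    LinearMap.codRestrict _
      (((LinearMap.funLeft ℝ ℝ Sum.inl : (n ⊕ q → ℝ) →ₗ[ℝ] (n → ℝ)).comp
        (Submodule.subtype _)).comp (Submodule.subtype _)) fun v => by
          have h7 := (hker (v : S).1 (v : S).2).2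
          rw [hk v, mulVec_zero, add_zero] at h7
          exact h7
  have h8 : Module.finrank ℝ (LinearMap.ker π') ≤ Module.finrank ℝ (LinearMap.ker D.mulVecLin) := by
    apply LinearMap.finrank_le_finrank_of_injective (f := ψ)
    intro v w hvw
    apply Subtype.ext
    apply Subtype.ext
    have h9 : (v : S).1 ∘ Sum.inl = (w : S).1 ∘ Sum.inl := congrArg Subtype.val hvw
    funext i
    cases i with
    | inl i => exact congrFun h9 i
    | inr i =>
      have e1 := congrFun (hk v) i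
      have e2 := congrFun (hk w) i
      simp only [Function.comp_apply, Pi.zero_apply] at e1 e2
      rw [e1, e2]
  have h10 : Module.finrank ℝ S = Module.finrank ℝ (LinearMap.ker (fromBlocks 0 B D E).mulVecLin) :=
    rfl
  omega

namespace Cover

variable {X Y : Type*} [Fintype X] [Fintype Y] [DecidableEq X] [DecidableEq Y]

/-- The zeros in `R × C` can be covered by `k` all-zero submatrices. -/
def Cov (M : Matrix X Y ℝ) (R : Finset X) (C : Finset Y) (k : ℕ) : Prop :=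
  ∃ S : Finset (Finset X × Finset Y), S.card ≤ k ∧ (∀ P ∈ S, ∀ x ∈ P.1, ∀ y ∈ P.2, M x y = 0) ∧
    ∀ x ∈ R, ∀ y ∈ C, M x y = 0 → ∃ P ∈ S, x ∈ P.1 ∧ y ∈ P.2

theorem Cov.mono {M : Matrix X Y ℝ} {R : Finset X} {C : Finset Y} {k l : ℕ} (h : Cov M R C k)
    (hkl : k ≤ l) : Cov M R C l := by
  obtain ⟨S, h1, h2, h3⟩ := h
  exact ⟨S, h1.trans hkl, h2, h3⟩

theorem Cov.union {M : Matrix X Y ℝ} {R R₁ R₂ : Finset X} {C C₁ C₂ : Finset Y} {k l : ℕ}
    (h₁ : Cov M R₁ C₁ k) (h₂ : Cov M R₂ C₂ l)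
    (h : ∀ x ∈ R, ∀ y ∈ C, M x y = 0 → (x ∈ R₁ ∧ y ∈ C₁) ∨ (x ∈ R₂ ∧ y ∈ C₂)) :
    Cov M R C (k + l) := by
  obtain ⟨S, h1, h2, h3⟩ := h₁
  obtain ⟨T, k1, k2, k3⟩ := h₂
  refine ⟨S ∪ T, (card_union_le S T).trans (add_le_add h1 k1), ?_, ?_⟩
  · intro P hP
    rcases mem_union.1 hP with hP | hP
    · exact h2 P hP
    · exact k2 P hP
  · intro x hx y hy hxy
    rcases h x hx y hy hxy with ⟨h4, h5⟩ | ⟨h4, h5⟩
    · obtain ⟨P, hP, h6⟩ := h3 x h4 y h5 hxy
      exact ⟨P, mem_union_left _ hP, h6⟩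
    · obtain ⟨P, hP, h6⟩ := k3 x h4 y h5 hxy
      exact ⟨P, mem_union_right _ hP, h6⟩

theorem cov_of_empty {M : Matrix X Y ℝ} {R : Finset X} {C : Finset Y} (h : R = ∅ ∨ C = ∅) (k : ℕ) :
    Cov M R C k := by
  refine ⟨∅, by simp, by simp, ?_⟩
  intro x hx y hy
  rcases h with rfl | rfl
  · simp at hx
  · simp at hy

/-- The rank of a submatrix. -/
noncomputable def rk (M : Matrix X Y ℝ) (R : Finset X) (C : Finset Y) : ℕ :=
  (M.submatrix (fun x : R => (x : X)) (fun y : C => (y : Y))).rank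

theorem rk_mono {M : Matrix X Y ℝ} {R R' : Finset X} {C C' : Finset Y} (hR : R' ⊆ R)
    (hC : C' ⊆ C) : rk M R' C' ≤ rk M R C :=
  rank_submatrix_le (M.submatrix (fun x : R => (x : X)) (fun y : C => (y : Y)))
    (fun x : R' => ⟨x, hR x.2⟩) (fun y : C' => ⟨y, hC y.2⟩)

theorem rk_le {M : Matrix X Y ℝ} {R : Finset X} {C : Finset Y} : rk M R C ≤ M.rank :=
  rank_submatrix_le M _ _

theorem rank_const_le {m n : Type*} [Fintype m] [Fintype n] (a : m → ℝ) (b : n → ℝ) :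
    (Matrix.of fun i j => a i * b j : Matrix m n ℝ).rank ≤ 1 := by
  have h : (Matrix.of fun i j => a i * b j : Matrix m n ℝ) = vecMulVec a b := by
    ext i j
    simp [vecMulVec_apply]
  rw [h]
  exact rank_vecMulVec_le a b

/-- The recursion step. -/
theorem rk_split (M : Matrix X Y ℝ) (R R₁ : Finset X) (C C₁ : Finset Y) (hR : R₁ ⊆ R)
    (hC : C₁ ⊆ C) (v : ℝ) (hv : ∀ x ∈ R₁, ∀ y ∈ C₁, M x y = v) :
    rk M R₁ (C \ C₁) + rk M (R \ R₁) C₁ ≤ rk M R C + 1 := by
  let f : R₁ ⊕ (R \ R₁ : Finset X) → R := Sum.elim (fun x => ⟨x, hR x.2⟩)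
    (fun x => ⟨x, (mem_sdiff.1 x.2).1⟩)
  let g : C₁ ⊕ (C \ C₁ : Finset Y) → C := Sum.elim (fun y => ⟨y, hC y.2⟩)
    (fun y => ⟨y, (mem_sdiff.1 y.2).1⟩)
  let N := (M.submatrix (fun x : R => (x : X)) (fun y : C => (y : Y))).submatrix f g
  have hN : N.rank ≤ rk M R C := rank_submatrix_le _ f g
  let a : R₁ ⊕ (R \ R₁ : Finset X) → ℝ := Sum.elim (fun _ => v) (fun _ => 0)
  let b : C₁ ⊕ (C \ C₁ : Finset Y) → ℝ := Sum.elim (fun _ => 1) (fun _ => 0)
  have h1 : fromBlocks 0 (M.submatrix (fun x : R₁ => (x : X)) (fun y : (C \ C₁ : Finset Y) => (y : Y)))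
      (M.submatrix (fun x : (R \ R₁ : Finset X) => (x : X)) (fun y : C₁ => (y : Y)))
      (M.submatrix (fun x : (R \ R₁ : Finset X) => (x : X))
        (fun y : (C \ C₁ : Finset Y) => (y : Y))) = N - Matrix.of fun i j => a i * b j := by
    ext i j
    rcases i with i | i <;> rcases j with j | j
    · simp [N, f, g, a, b, hv i i.2 j j.2]
    · simp [N, f, g, a, b]
    · simp [N, f, g, a, b]
    · simp [N, f, g, a, b]
  have h2 := rank_add_rank_le_fromBlocks
    (M.submatrix (fun x : R₁ => (x : X)) (fun y : (C \ C₁ : Finset Y) => (y : Y)))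
      (M.submatrix (fun x : (R \ R₁ : Finset X) => (x : X)) (fun y : C₁ => (y : Y)))
      (M.submatrix (fun x : (R \ R₁ : Finset X) => (x : X))
        (fun y : (C \ C₁ : Finset Y) => (y : Y)))
  rw [h1] at h2
  have h3 := Pool.Agent.Helper26.rank_sub_le N (Matrix.of fun i j => a i * b j)
  have h4 := rank_const_le a b
  change rk M R₁ (C \ C₁) + rk M (R \ R₁) C₁ ≤ _ at h2
  omega

/-- Submatrices of rank at most one. -/
theorem cov_two (M : Matrix X Y ℝ) (hM : ∀ x y, M x y = 0 ∨ M x y = 1) (R : Finset X)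
    (C : Finset Y) (h : rk M R C ≤ 1) : Cov M R C 2 := by
  classical
  by_cases hz : ∀ x ∈ R, ∀ y ∈ C, M x y = 0
  · exact ⟨{(R, C)}, by simp, by simpa using hz, fun x hx y hy _ => ⟨(R, C), by simp, hx, hy⟩⟩
  push Not at hz
  obtain ⟨x₀, hx₀, y₀, hy₀, h0⟩ := hz
  have hminor : ∀ x ∈ R, ∀ y ∈ C, ∀ y' ∈ C, M x₀ y' * M x y = M x₀ y * M x y' := by
    intro x hx y hy y' hy'
    let f : Fin 2 → R := ![⟨x₀, hx₀⟩, ⟨x, hx⟩]
    let g : Fin 2 → C := ![⟨y', hy'⟩, ⟨y, hy⟩]
    let N := (M.submatrix (fun x : R => (x : X)) (fun y : C => (y : Y))).submatrix f g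
    have hN : N.rank ≤ rk M R C := rank_submatrix_le _ f g
    have hdet : N.det = 0 := by
      by_contra hne
      have h1 : IsUnit N := (Matrix.isUnit_iff_isUnit_det N).2 (IsUnit.mk0 _ hne)
      have h2 := rank_of_isUnit N h1
      rw [Fintype.card_fin] at h2
      omega
    rw [det_fin_two] at hdet
    have h3 : M x₀ y' * M x y - M x₀ y * M x y' = 0 := by
      simpa [N, f, g] using hdet
    linarith
  refine ⟨{(R.filter (fun x => ∀ y ∈ C, M x y = 0), C), (R, C.filter (fun y => M x₀ y = 0))},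
    card_le_two, ?_, ?_⟩
  · intro P hP x hx y hy
    rw [mem_insert, mem_singleton] at hP
    rcases hP with rfl | rfl
    · exact (mem_filter.1 hx).2 y hy
    · by_contra hne
      have h1 : M x y = 1 := (hM x y).resolve_left hne
      have h2 : M x₀ y = 0 := (mem_filter.1 hy).2
      have h3 := hminor x hx y (mem_filter.1 hy).1 y₀ hy₀
      rw [h1, h2, zero_mul, mul_one] at h3
      exact h0 h3
  · intro x hx y hy hxy
    by_cases hxz : ∀ y ∈ C, M x y = 0
    · exact ⟨_, mem_insert_self _ _, mem_filter.2 ⟨hx, hxz⟩, hy⟩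
    · push Not at hxz
      obtain ⟨y', hy', hne⟩ := hxz
      refine ⟨(R, C.filter (fun y => M x₀ y = 0)), by simp, hx, mem_filter.2 ⟨hy, ?_⟩⟩
      have h3 := hminor x hx y hy y' hy'
      rw [hxy, mul_zero] at h3
      exact (mul_eq_zero.1 h3.symm).resolve_right hne

/-- The cover of a submatrix of rank at most `s`, given covers for rank at most `(s + 1) / 2`. -/
theorem cov_step (M : Matrix X Y ℝ) (K s k : ℕ) (hK : 1 ≤ K)
    (hrect : ∀ (R : Finset X) (C : Finset Y), R.Nonempty → C.Nonempty →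
      ∃ R' ⊆ R, ∃ C' ⊆ C, ∃ v : ℝ, R.card ≤ R'.card * K ∧ C.card ≤ C'.card * K ∧
        ∀ x ∈ R', ∀ y ∈ C', M x y = v)
    (R₀ : Finset X) (C₀ : Finset Y)
    (hk : ∀ (R : Finset X) (C : Finset Y), R ⊆ R₀ → C ⊆ C₀ → rk M R C ≤ (s + 1) / 2 →
      Cov M R C k) (i : ℕ) :
    ∀ (R : Finset X) (C : Finset Y), R ⊆ R₀ → C ⊆ C₀ → rk M R C ≤ s →
      R.card * C.card * (K - 1) ^ i < K ^ i → Cov M R C (i * (1 + k)) := by
  induction i with
  | zero =>
    intro R C _ _ _ hc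
    apply cov_of_empty
    rw [pow_zero, pow_zero, mul_one, Nat.lt_one_iff, mul_eq_zero, card_eq_zero, card_eq_zero] at hc
    exact hc
  | succ i ih =>
    intro R C hRR hCC hr hc
    rcases R.eq_empty_or_nonempty with hR | hR
    · exact cov_of_empty (Or.inl hR) _
    rcases C.eq_empty_or_nonempty with hC | hC
    · exact cov_of_empty (Or.inr hC) _
    obtain ⟨R₁, hR₁, C₁, hC₁, v, hRc, hCc, hv⟩ := hrect R C hR hC
    have hsplit := rk_split M R R₁ C C₁ hR₁ hC₁ v hv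
    have hone : Cov M R₁ C₁ 1 := by
      by_cases hv0 : v = 0
      · exact ⟨{(R₁, C₁)}, by simp, by
          intro P hP x hx y hy
          rw [mem_singleton] at hP
          subst hP
          rw [hv x hx y hy, hv0], fun x hx y hy _ => ⟨(R₁, C₁), by simp, hx, hy⟩⟩
      · exact ⟨∅, by simp, by simp, fun x hx y hy hxy => absurd ((hv x hx y hy).symm.trans hxy) hv0⟩
    have hcardR : (R \ R₁).card * K ≤ (K - 1) * R.card := by
      have h1 : (R \ R₁).card + R₁.card = R.card := card_sdiff_add_card_eq_card hR₁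
      obtain ⟨K, rfl⟩ : ∃ K', K = K' + 1 := ⟨K - 1, by omega⟩
      simp only [Nat.add_sub_cancel]
      nlinarith
    have hcardC : (C \ C₁).card * K ≤ (K - 1) * C.card := by
      have h1 : (C \ C₁).card + C₁.card = C.card := card_sdiff_add_card_eq_card hC₁
      obtain ⟨K, rfl⟩ : ∃ K', K = K' + 1 := ⟨K - 1, by omega⟩
      simp only [Nat.add_sub_cancel]
      nlinarith
    have hsum : (i + 1) * (1 + k) = 1 + k + i * (1 + k) := by ring
    rw [hsum]
    have hKpos : 0 < K := hK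
    rcases le_or_gt (rk M R₁ (C \ C₁)) ((s + 1) / 2) with hB | hB
    · have h1 : Cov M R₁ C (1 + k) := hone.union
        (hk _ _ (hR₁.trans hRR) (sdiff_subset.trans hCC) hB) (by
        intro x hx y hy _
        by_cases hy1 : y ∈ C₁
        · exact Or.inl ⟨hx, hy1⟩
        · exact Or.inr ⟨hx, mem_sdiff.2 ⟨hy, hy1⟩⟩)
      have h2 : Cov M (R \ R₁) C (i * (1 + k)) := by
        apply ih _ _ (sdiff_subset.trans hRR) hCC
        · exact (rk_mono sdiff_subset (Subset.refl C)).trans hr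
        · have h3 : K * ((R \ R₁).card * C.card * (K - 1) ^ i) < K * K ^ i := by
            calc K * ((R \ R₁).card * C.card * (K - 1) ^ i)
                = ((R \ R₁).card * K) * (C.card * (K - 1) ^ i) := by ring
              _ ≤ ((K - 1) * R.card) * (C.card * (K - 1) ^ i) := Nat.mul_le_mul_right _ hcardR
              _ = R.card * C.card * (K - 1) ^ (i + 1) := by ring
              _ < K ^ (i + 1) := hc
              _ = K * K ^ i := by ring
          exact Nat.lt_of_mul_lt_mul_left h3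
      refine h1.union h2 ?_
      intro x hx y hy _
      by_cases hx1 : x ∈ R₁
      · exact Or.inl ⟨hx1, hy⟩
      · exact Or.inr ⟨mem_sdiff.2 ⟨hx, hx1⟩, hy⟩
    · have hD : rk M (R \ R₁) C₁ ≤ (s + 1) / 2 := by omega
      have h1 : Cov M R C₁ (1 + k) := hone.union
        (hk _ _ (sdiff_subset.trans hRR) (hC₁.trans hCC) hD) (by
        intro x hx y hy _
        by_cases hx1 : x ∈ R₁
        · exact Or.inl ⟨hx1, hy⟩
        · exact Or.inr ⟨mem_sdiff.2 ⟨hx, hx1⟩, hy⟩)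
      have h2 : Cov M R (C \ C₁) (i * (1 + k)) := by
        apply ih _ _ hRR (sdiff_subset.trans hCC)
        · exact (rk_mono (Subset.refl R) sdiff_subset).trans hr
        · have h3 : K * (R.card * (C \ C₁).card * (K - 1) ^ i) < K * K ^ i := by
            calc K * (R.card * (C \ C₁).card * (K - 1) ^ i)
                = ((C \ C₁).card * K) * (R.card * (K - 1) ^ i) := by ring
              _ ≤ ((K - 1) * C.card) * (R.card * (K - 1) ^ i) := Nat.mul_le_mul_right _ hcardC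
              _ = R.card * C.card * (K - 1) ^ (i + 1) := by ring
              _ < K ^ (i + 1) := hc
              _ = K * K ^ i := by ring
          exact Nat.lt_of_mul_lt_mul_left h3
      refine h1.union h2 ?_
      intro x hx y hy _
      by_cases hy1 : y ∈ C₁
      · exact Or.inl ⟨hx, hy1⟩
      · exact Or.inr ⟨hx, mem_sdiff.2 ⟨hy, hy1⟩⟩

/-- Bernoulli -/
theorem pow_pred_lt (K : ℕ) (hK : 1 ≤ K) : (K - 1) ^ K * 2 ≤ K ^ K := by
  rcases Nat.lt_or_ge K 2 with h | h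
  · obtain rfl : K = 1 := by omega
    norm_num
  · obtain ⟨L, rfl⟩ : ∃ L, K = L + 1 := ⟨K - 1, by omega⟩
    simp only [Nat.add_sub_cancel]
    have hL : 1 ≤ L := by omega
    -- `(L + 1) ^ (L + 1) ≥ L ^ (L + 1) + (L + 1) * L ^ L`
    have h1 : ∀ n : ℕ, L ^ (n + 1) + (n + 1) * L ^ n ≤ (L + 1) ^ (n + 1) := by
      intro n
      induction n with
      | zero => simp
      | succ n ih =>
        calc L ^ (n + 1 + 1) + (n + 1 + 1) * L ^ (n + 1)
            ≤ (L ^ (n + 1) + (n + 1) * L ^ n) * (L + 1) := by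
              have : L ^ (n + 1 + 1) + (n + 1 + 1) * L ^ (n + 1) + (n + 1) * L ^ n =
                (L ^ (n + 1) + (n + 1) * L ^ n) * (L + 1) := by ring
              omega
          _ ≤ (L + 1) ^ (n + 1) * (L + 1) := Nat.mul_le_mul_right _ ih
          _ = (L + 1) ^ (n + 1 + 1) := by ring
    have h2 := h1 L
    have h3 : L ^ (L + 1) ≤ (L + 1) * L ^ L := by
      rw [pow_succ]
      nlinarith [Nat.zero_le (L ^ L)]
    omega

theorem small_enough (K ρ N : ℕ) (hK : 1 ≤ K) (hN : N ≤ 2 ^ ρ * 2 ^ ρ) :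
    N * (K - 1) ^ (K * (2 * ρ + 1)) < K ^ (K * (2 * ρ + 1)) := by
  have h1 := pow_pred_lt K hK
  have h2 : ((K - 1) ^ K * 2) ^ (2 * ρ + 1) ≤ (K ^ K) ^ (2 * ρ + 1) := Nat.pow_le_pow_left h1 _
  rw [mul_pow, ← pow_mul, ← pow_mul] at h2
  have h3 : 0 < K ^ (K * (2 * ρ + 1)) := Nat.pow_pos hK
  have h4 : 2 ^ (2 * ρ + 1) = 2 * (2 ^ ρ * 2 ^ ρ) := by
    rw [pow_succ, two_mul, pow_add]
    ring
  rw [h4] at h2
  have h5 : N * (K - 1) ^ (K * (2 * ρ + 1)) ≤
      (2 ^ ρ * 2 ^ ρ) * (K - 1) ^ (K * (2 * ρ + 1)) := Nat.mul_le_mul_right _ hN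
  rcases Nat.eq_zero_or_pos ((K - 1) ^ (K * (2 * ρ + 1))) with h6 | h6
  · rw [h6, mul_zero]
    exact h3
  · have h7 : 0 < (2 ^ ρ * 2 ^ ρ) * (K - 1) ^ (K * (2 * ρ + 1)) := by positivity
    have h8 : (K - 1) ^ (K * (2 * ρ + 1)) * (2 * (2 ^ ρ * 2 ^ ρ)) =
      2 * ((2 ^ ρ * 2 ^ ρ) * (K - 1) ^ (K * (2 * ρ + 1))) := by ring
    omega

/-- The full recursion. -/
theorem cov_main (M : Matrix X Y ℝ) (hM : ∀ x y, M x y = 0 ∨ M x y = 1) (K ρ : ℕ) (hK : 1 ≤ K)
    (hρ : 1 ≤ ρ)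
    (hrect : ∀ (R : Finset X) (C : Finset Y), R.Nonempty → C.Nonempty →
      ∃ R' ⊆ R, ∃ C' ⊆ C, ∃ v : ℝ, R.card ≤ R'.card * K ∧ C.card ≤ C'.card * K ∧
        ∀ x ∈ R', ∀ y ∈ C', M x y = v)
    (R₀ : Finset X) (C₀ : Finset Y) (hR₀ : R₀.card ≤ 2 ^ ρ) (hC₀ : C₀.card ≤ 2 ^ ρ) (d : ℕ) :
    ∀ (R : Finset X) (C : Finset Y), R ⊆ R₀ → C ⊆ C₀ → rk M R C ≤ 2 ^ d →
      Cov M R C (2 * (4 * K * ρ) ^ (d + 1)) := by
  induction d with
  | zero =>
    intro R C _ _ hr
    refine (cov_two M hM R C (by simpa using hr)).mono ?_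
    have h1 : 1 ≤ 4 * K * ρ := by
      have := Nat.mul_le_mul hK hρ
      nlinarith
    have h2 : 1 ≤ (4 * K * ρ) ^ (0 + 1) := Nat.one_le_pow _ _ h1
    omega
  | succ d ih =>
    intro R C hRR hCC hr
    have hk : ∀ (R : Finset X) (C : Finset Y), R ⊆ R₀ → C ⊆ C₀ →
        rk M R C ≤ (2 ^ (d + 1) + 1) / 2 → Cov M R C (2 * (4 * K * ρ) ^ (d + 1)) := by
      intro R C h1 h2 h3
      apply ih R C h1 h2
      have h4 : (2 ^ (d + 1) + 1) / 2 = 2 ^ d := by
        rw [pow_succ]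
        omega
      omega
    have hN : R.card * C.card ≤ 2 ^ ρ * 2 ^ ρ :=
      Nat.mul_le_mul ((card_le_card hRR).trans hR₀) ((card_le_card hCC).trans hC₀)
    refine (cov_step M K (2 ^ (d + 1)) _ hK hrect R₀ C₀ hk (K * (2 * ρ + 1)) R C hRR hCC hr
      (small_enough K ρ _ hK hN)).mono ?_
    have h1 : 1 ≤ K * ρ := Nat.mul_le_mul hK hρ
    have h2 : 2 ≤ (4 * K * ρ) ^ (d + 1) := by
      have h5 : 2 ≤ 4 * K * ρ := by nlinarith
      calc 2 ≤ 4 * K * ρ := h5
        _ = (4 * K * ρ) ^ 1 := (pow_one _).symm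
        _ ≤ (4 * K * ρ) ^ (d + 1) := Nat.pow_le_pow_right (by omega) (by omega)
    have h3 : K * (2 * ρ + 1) ≤ 3 * (K * ρ) := by nlinarith
    set B := (4 * K * ρ) ^ (d + 1) with hB
    have h4 : (4 * K * ρ) ^ (d + 1 + 1) = B * (4 * (K * ρ)) := by
      rw [pow_succ, ← hB]
      ring
    rw [h4]
    calc K * (2 * ρ + 1) * (1 + 2 * B) ≤ 3 * (K * ρ) * (1 + 2 * B) := Nat.mul_le_mul_right _ h3
      _ ≤ 2 * (B * (4 * (K * ρ))) := by
        have h6 : K * ρ * 2 ≤ K * ρ * B := Nat.mul_le_mul_left _ h2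
        nlinarith

theorem exists_reps {X Y : Type*} [Fintype X] [Fintype Y] [DecidableEq X]
    (M : Matrix X Y ℝ) (hM : ∀ x y, M x y = 0 ∨ M x y = 1) (ρ : ℕ) (hrk : M.rank ≤ ρ) :
    ∃ (R₀ : Finset X) (r : X → X), R₀.card ≤ 2 ^ ρ ∧ (∀ x, r x ∈ R₀) ∧
      ∀ x y, M (r x) y = M x y := by
  classical
  have h1 := Pool.Agent.Helper26.card_rows_le M hM
  let s : Set.range M.row → X := fun v => v.2.choose
  have hs : ∀ v : Set.range M.row, M.row (s v) = v := fun v => v.2.choose_spec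
  let r : X → X := fun x => s ⟨M.row x, x, rfl⟩
  refine ⟨univ.image r, r, ?_, fun x => mem_image_of_mem _ (mem_univ x), ?_⟩
  · have h2 : (univ.image r).card ≤ (Set.range M.row).ncard := by
      rw [← Set.ncard_coe_finset]
      refine Set.ncard_le_ncard_of_injOn M.row ?_ ?_ (Set.finite_range _)
      · intro x _
        exact ⟨x, rfl⟩
      · intro x hx x' hx' hxx'
        rw [coe_image] at hx hx'
        obtain ⟨a, -, rfl⟩ := hx
        obtain ⟨b, -, rfl⟩ := hx'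
        have h3 : M.row (r a) = M.row a := hs ⟨M.row a, a, rfl⟩
        have h4 : M.row (r b) = M.row b := hs ⟨M.row b, b, rfl⟩
        rw [h3, h4] at hxx'
        simp only [r]
        congr 1
        exact Subtype.ext hxx'
    exact h2.trans (h1.trans (Nat.pow_le_pow_right (by norm_num) hrk))
  · intro x y
    exact congrFun (hs ⟨M.row x, x, rfl⟩) y

end Cover

open Cover in
/-- If every submatrix of a Boolean matrix of rank at most `ρ` has a large constant submatrix then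
the zeros of the matrix can be covered by few all-zero submatrices. -/
theorem exists_zero_cover {X Y : Type*} [Fintype X] [Fintype Y] [DecidableEq X] [DecidableEq Y]
    (M : Matrix X Y ℝ) (hM : ∀ x y, M x y = 0 ∨ M x y = 1) (K ρ : ℕ) (hK : 1 ≤ K) (hρ : 1 ≤ ρ)
    (hrk : M.rank ≤ ρ)
    (hrect : ∀ (R : Finset X) (C : Finset Y), R.Nonempty → C.Nonempty →
      ∃ R' ⊆ R, ∃ C' ⊆ C, ∃ v : ℝ, R.card ≤ R'.card * K ∧ C.card ≤ C'.card * K ∧
        ∀ x ∈ R', ∀ y ∈ C', M x y = v) :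
    ∃ (k : ℕ) (A : Fin k → Finset X) (B : Fin k → Finset Y),
      (∀ i, ∀ x ∈ A i, ∀ y ∈ B i, M x y = 0) ∧
      (∀ x y, M x y = 0 → ∃ i, x ∈ A i ∧ y ∈ B i) ∧
      k ≤ 2 * (4 * K * ρ) ^ (Nat.log 2 ρ + 2) := by
  classical
  obtain ⟨R₀, r, hR₀, hr, hMr⟩ := exists_reps M hM ρ hrk
  obtain ⟨C₀, c, hC₀, hc, hMc⟩ := exists_reps Mᵀ (fun y x => hM x y) ρ (by rwa [rank_transpose])
  have hd : rk M R₀ C₀ ≤ 2 ^ (Nat.log 2 ρ + 1) :=
    (rk_le.trans hrk).trans (Nat.lt_pow_succ_log_self (by norm_num) ρ).le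
  obtain ⟨S, h1, h2, h3⟩ := cov_main M hM K ρ hK hρ hrect R₀ C₀ hR₀ hC₀ (Nat.log 2 ρ + 1) R₀ C₀
    (Subset.refl _) (Subset.refl _) hd
  have hMM : ∀ x y, M (r x) (c y) = M x y := by
    intro x y
    rw [hMr x (c y)]
    exact hMc y x
  refine ⟨S.card, fun i => univ.filter fun x => r x ∈ (S.equivFin.symm i).1.1,
    fun i => univ.filter fun y => c y ∈ (S.equivFin.symm i).1.2, ?_, ?_, h1⟩
  · intro i x hx y hy
    rw [← hMM]
    exact h2 _ (S.equivFin.symm i).2 _ (mem_filter.1 hx).2 _ (mem_filter.1 hy).2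
  · intro x y hxy
    obtain ⟨P, hP, h4, h5⟩ := h3 (r x) (hr x) (c y) (hc y) (by rw [hMM]; exact hxy)
    refine ⟨S.equivFin ⟨P, hP⟩, ?_, ?_⟩
    · rw [mem_filter, Equiv.symm_apply_apply]
      exact ⟨mem_univ _, h4⟩
    · rw [mem_filter, Equiv.symm_apply_apply]
      exact ⟨mem_univ _, h5⟩

end Pool.Agent.Helper25.Meet
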