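import Mathlib
set_option autoImplicit false

namespace Pool.Agent.Helper25.Meet

/-- The graph `G_f` of a Boolean function `f` on a meet-semilattice `L`: the vertices are the pairs
`(a, b)` of elements of `L` with `f (a ⊓ b) = 0`, and `(a, b)`, `(a', b')` are adjacent iff
`f (a ⊓ b') = 1` or `f (a' ⊓ b) = 1`. -/
def meetGraph {L : Type*} [SemilatticeInf L] (f : L → Bool) :
    SimpleGraph {p : L × L // f (p.1 ⊓ p.2) = false} where
  Adj p q := f (p.1.1 ⊓ q.1.2) = true ∨ f (q.1.1 ⊓ p.1.2) = true
  symm := ⟨fun _ _ h => h.symm⟩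
  loopless := ⟨fun p h => by
    have := p.2
    rcases h with h | h <;> simp [this] at h⟩

end Pool.Agent.Helper25.Meet
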