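import Mathlib
import Pool.Agent.Helper25.Meet.Rect
import Pool.Agent.Helper25.Meet.Cover
import Pool.Agent.Helper25.Meet.Latt
import Pool.Agent.Helper25.Meet.Graph
set_option autoImplicit false

/-!
# Covering the zeros of a meet function of low rank
-/

namespace Pool.Agent.Helper25.Meet

open Finset

/-- covering theorem for meet functions on finite semilattices -/
theorem meet_cover {L : Type*} [Fintype L] [SemilatticeInf L] (g : L → ℝ)
    (hg : ∀ a, g a = 0 ∨ g a = 1) (ρ : ℕ) (hρ : 1 ≤ ρ)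
    (hrk : (Matrix.of fun a b : L => g (a ⊓ b)).rank ≤ ρ) :
    ∃ (k : ℕ) (A B : Fin k → Finset L), (∀ i, ∀ x ∈ A i, ∀ y ∈ B i, g (x ⊓ y) = 0) ∧
      (∀ x y, g (x ⊓ y) = 0 → ∃ i, x ∈ A i ∧ y ∈ B i) ∧
      k ≤ 2 ^ (92167 * (Nat.log 2 ρ + 1) ^ 7) := by
  classical
  obtain ⟨c, f, Z, hm, h01, hr, hZ, hfg⟩ := exists_sparse_of_semilattice L g hg
  have hr' : (univ.filter (fun S => c S ≠ 0)).card ≤ ρ + 1 := hr.trans (by omega)
  obtain ⟨k, A, B, h1, h2, h3⟩ := exists_zero_cover (Matrix.of fun a b : L => g (a ⊓ b))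
    (fun x y => hg _) (dens (ρ + 1)) ρ (by
      unfold dens
      exact Nat.one_le_pow _ _ (pow_pos (by omega) _)) hρ hrk (by
    intro R C hR hC
    obtain ⟨R1, hR1, C1, hC1, v, e1, e2, e3⟩ := exists_rect (ρ + 1) (by omega) c f hm h01 hr'
      (R.image Z) (C.image Z) (hR.image Z) (hC.image Z)
    have hcard : ∀ (R : Finset L) (R1 : Finset (Finset L)), R1 ⊆ R.image Z →
        (R.filter (fun a => Z a ∈ R1)).card = R1.card := by
      intro R R1 hR1
      have : (R.filter (fun a => Z a ∈ R1)).image Z = R1 := by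
        ext S
        simp only [mem_image, mem_filter]
        constructor
        · rintro ⟨a, ⟨_, h⟩, rfl⟩; exact h
        · intro hS
          obtain ⟨a, ha, rfl⟩ := mem_image.1 (hR1 hS)
          exact ⟨a, ⟨ha, hS⟩, rfl⟩
      rw [← this, card_image_of_injective _ hZ, this]
    refine ⟨R.filter (fun a => Z a ∈ R1), filter_subset _ _, C.filter (fun a => Z a ∈ C1),
      filter_subset _ _, v, ?_, ?_, ?_⟩
    · rw [hcard R R1 hR1]
      rwa [card_image_of_injective _ hZ] at e1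
    · rw [hcard C C1 hC1]
      rwa [card_image_of_injective _ hZ] at e2
    · intro x hx y hy
      rw [mem_filter] at hx hy
      rw [Matrix.of_apply, ← hfg]
      exact e3 _ hx.2 _ hy.2)
  refine ⟨k, A, B, h1, h2, h3.trans ?_⟩
  set l := Nat.log 2 ρ + 1 with hl
  have hl1 : 1 ≤ l := by omega
  have hρl : ρ < 2 ^ l := Nat.lt_pow_succ_log_self (by norm_num) ρ
  clear_value l
  have hlog : Nat.log 2 (ρ + 1) + 1 ≤ 2 * l := by
    have h5 : Nat.log 2 (ρ + 1) ≤ Nat.log 2 (2 * ρ) := Nat.log_mono_right (by omega)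
    have h6 : Nat.log 2 (2 * ρ) = Nat.log 2 ρ + 1 := by
      rw [mul_comm]; exact Nat.log_mul_base (by norm_num) (by omega)
    omega
  have hdens : dens (ρ + 1) ≤ 2 ^ (46080 * l ^ 6) := by
    refine (dens_le (ρ + 1) (by omega)).trans ?_
    apply Nat.pow_le_pow_right (by norm_num)
    calc 720 * (Nat.log 2 (ρ + 1) + 1) ^ 6 ≤ 720 * (2 * l) ^ 6 :=
          Nat.mul_le_mul_left _ (Nat.pow_le_pow_left hlog _)
      _ = 46080 * l ^ 6 := by ring
  have hl6 : l ≤ l ^ 6 := Nat.le_self_pow (by norm_num) l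
  have hl7 : 1 ≤ l ^ 7 := Nat.one_le_pow _ _ hl1
  have h6 : 4 * dens (ρ + 1) * ρ ≤ 2 ^ (46083 * l ^ 6) := by
    calc 4 * dens (ρ + 1) * ρ ≤ 2 ^ 2 * 2 ^ (46080 * l ^ 6) * 2 ^ l :=
          Nat.mul_le_mul (Nat.mul_le_mul (by norm_num) hdens) hρl.le
      _ = 2 ^ (2 + 46080 * l ^ 6 + l) := by rw [pow_add, pow_add]
      _ ≤ 2 ^ (46083 * l ^ 6) := Nat.pow_le_pow_right (by norm_num) (by omega)
  calc 2 * (4 * dens (ρ + 1) * ρ) ^ (Nat.log 2 ρ + 2)
      ≤ 2 ^ 1 * (2 ^ (46083 * l ^ 6)) ^ (2 * l) := by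
        apply Nat.mul_le_mul (by norm_num)
        refine (Nat.pow_le_pow_left h6 _).trans ?_
        apply Nat.pow_le_pow_right (by positivity)
        omega
    _ = 2 ^ (1 + 92166 * l ^ 7) := by
        have h7 : (46083 * l ^ 6) * (2 * l) = 92166 * l ^ 7 := by ring
        rw [← pow_mul, h7, ← pow_add]
    _ ≤ 2 ^ (92167 * l ^ 7) := Nat.pow_le_pow_right (by norm_num) (by omega)

theorem colouring {L : Type*} [Fintype L] [SemilatticeInf L] (f : L → Bool)
    [DecidableRel (meetGraph f).Adj] (hr : 1 < ((meetGraph f).adjMatrix ℝ).rank) :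
    (meetGraph f).Colorable
      (2 ^ (92168 * (Nat.log 2 ((meetGraph f).adjMatrix ℝ).rank + 1) ^ 7)) := by
  classical
  set ρ := ((meetGraph f).adjMatrix ℝ).rank with hρ
  set W := {w : L // Minimal (fun x => f x = false) w} with hW
  -- the covers
  have hcov : ∀ w : W, ∃ (k : ℕ) (A B : Fin k → Finset (Set.Ici w.1)),
      (∀ i, ∀ x ∈ A i, ∀ y ∈ B i, f (x.1 ⊓ y.1) = false) ∧
      (∀ x y : Set.Ici w.1, f (x.1 ⊓ y.1) = false → ∃ i, x ∈ A i ∧ y ∈ B i) ∧
      k ≤ 2 ^ (92167 * (Nat.log 2 ρ + 1) ^ 7) := by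
    intro w
    have hw : f w.1 = false := w.2.1
    have hrk : (Matrix.of fun a b : Set.Ici w.1 =>
        (fun x : Set.Ici w.1 => if f x.1 = true then (1 : ℝ) else 0) (a ⊓ b)).rank ≤ ρ := by
      have hsub : (Matrix.of fun a b : Set.Ici w.1 =>
          (fun x : Set.Ici w.1 => if f x.1 = true then (1 : ℝ) else 0) (a ⊓ b)) =
          ((meetGraph f).adjMatrix ℝ).submatrix
            (fun a : Set.Ici w.1 => ⟨(a.1, w.1), by
              have h : a.1 ⊓ w.1 = w.1 := inf_eq_right.2 a.2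
              simp only [h, hw]⟩)
            (fun b : Set.Ici w.1 => ⟨(w.1, b.1), by
              have h : w.1 ⊓ b.1 = w.1 := inf_eq_left.2 b.2
              simp only [h, hw]⟩) := by
        ext a b
        rw [Matrix.submatrix_apply, SimpleGraph.adjMatrix_apply, Matrix.of_apply]
        simp only [meetGraph, inf_idem, hw, Bool.false_eq_true, or_false]
        rfl
      rw [hsub]
      exact Matrix.rank_submatrix_le _ _ _
    obtain ⟨k, A, B, h1, h2, h3⟩ := meet_cover
      (fun x : Set.Ici w.1 => if f x.1 = true then (1 : ℝ) else 0)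
      (fun a => by by_cases h : f a.1 = true <;> simp [h]) ρ (by omega) hrk
    refine ⟨k, A, B, ?_, ?_, h3⟩
    · intro i x hx y hy
      have := h1 i x hx y hy
      by_contra hcon
      rw [Bool.not_eq_false] at hcon
      have h4 : (x ⊓ y : Set.Ici w.1).1 = x.1 ⊓ y.1 := rfl
      simp only [h4, hcon, if_true] at this
      exact one_ne_zero this
    · intro x y hxy
      apply h2 x y
      have h4 : (x ⊓ y : Set.Ici w.1).1 = x.1 ⊓ y.1 := rfl
      simp only [h4, hxy, Bool.false_eq_true, if_false]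
  choose k A B hAB hcover hk using hcov
  -- the number of minimal elements
  have hWcard : Fintype.card W ≤ ρ + 1 := by
    have hid : (1 : Matrix W W ℝ) = (Matrix.of fun _ _ : W => (1 : ℝ) * 1) -
        ((meetGraph f).adjMatrix ℝ).submatrix
          (fun w : W => ⟨(w.1, w.1), by simp only [inf_idem]; exact w.2.1⟩)
          (fun w : W => ⟨(w.1, w.1), by simp only [inf_idem]; exact w.2.1⟩) := by
      ext v w
      rw [Matrix.sub_apply, Matrix.of_apply, Matrix.submatrix_apply, SimpleGraph.adjMatrix_apply,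
        Matrix.one_apply]
      by_cases hvw : v = w
      · subst hvw
        simp [meetGraph]
      · have h5 : f (v.1 ⊓ w.1) = true := by
          by_contra hcon
          rw [Bool.not_eq_true] at hcon
          have h6 := v.2.2 hcon inf_le_left
          have h7 := w.2.2 hcon inf_le_right
          apply hvw
          apply Subtype.ext
          exact le_antisymm (h6.trans inf_le_right) (h7.trans inf_le_left)
        simp [meetGraph, hvw, h5]
    have h8 : (1 : Matrix W W ℝ).rank = Fintype.card W := Matrix.rank_one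
    rw [← h8, hid]
    refine (Pool.Agent.Helper26.rank_sub_le _ _).trans ?_
    have h9 := Cover.rank_const_le (fun _ : W => (1 : ℝ)) (fun _ : W => (1 : ℝ))
    have h10 := Matrix.rank_submatrix_le ((meetGraph f).adjMatrix ℝ)
      (fun w : W => ⟨(w.1, w.1), by simp only [inf_idem]; exact w.2.1⟩)
      (fun w : W => ⟨(w.1, w.1), by simp only [inf_idem]; exact w.2.1⟩)
    omega
  -- the colouring
  have hcol : ∀ p : {p : L × L // f (p.1 ⊓ p.2) = false}, ∃ s : (Σ w : W, Fin (k w)),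
      ∃ (h1 : s.1.1 ≤ p.1.1) (h2 : s.1.1 ≤ p.1.2), (⟨p.1.1, h1⟩ : Set.Ici s.1.1) ∈ A s.1 s.2 ∧
        (⟨p.1.2, h2⟩ : Set.Ici s.1.1) ∈ B s.1 s.2 := by
    intro p
    obtain ⟨w, hw1, hw2⟩ := (Set.toFinite {x : L | f x = false}).exists_le_minimal
      (a := p.1.1 ⊓ p.1.2) p.2
    have hle1 : w ≤ p.1.1 := hw1.trans inf_le_left
    have hle2 : w ≤ p.1.2 := hw1.trans inf_le_right
    obtain ⟨i, hi1, hi2⟩ := hcover ⟨w, hw2⟩ ⟨p.1.1, hle1⟩ ⟨p.1.2, hle2⟩ p.2
    exact ⟨⟨⟨w, hw2⟩, i⟩, hle1, hle2, hi1, hi2⟩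
  choose s hs using hcol
  have hkey : ∀ p q, s p = s q → f (p.1.1 ⊓ q.1.2) = false := by
    intro p q heq
    obtain ⟨h1, _, h3, _⟩ := hs p
    have h4 := hs q
    rw [← heq] at h4
    obtain ⟨_, h6, _, h8⟩ := h4
    exact hAB _ _ _ h3 _ h8
  let col : (meetGraph f).Coloring (Σ w : W, Fin (k w)) :=
    SimpleGraph.Coloring.mk s (by
      intro p q hpq heq
      rcases hpq with h | h
      · rw [hkey p q heq] at h; exact absurd h (by simp)
      · rw [hkey q p heq.symm] at h; exact absurd h (by simp))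
  have hcard : Fintype.card (Σ w : W, Fin (k w)) ≤
      2 ^ (92168 * (Nat.log 2 ρ + 1) ^ 7) := by
    rw [Fintype.card_sigma]
    simp only [Fintype.card_fin]
    set l := Nat.log 2 ρ + 1 with hl
    have hρl : ρ < 2 ^ l := Nat.lt_pow_succ_log_self (by norm_num) ρ
    clear_value l
    have hl7 : l ≤ l ^ 7 := Nat.le_self_pow (by norm_num) l
    calc ∑ w : W, k w ≤ ∑ _w : W, 2 ^ (92167 * l ^ 7) := sum_le_sum (fun w _ => hk w)
      _ = Fintype.card W * 2 ^ (92167 * l ^ 7) := by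
          rw [sum_const, smul_eq_mul, card_univ]
      _ ≤ 2 ^ l * 2 ^ (92167 * l ^ 7) := Nat.mul_le_mul_right _ (by omega)
      _ = 2 ^ (l + 92167 * l ^ 7) := by rw [pow_add]
      _ ≤ 2 ^ (92168 * l ^ 7) := Nat.pow_le_pow_right (by norm_num) (by omega)
  exact col.colorable.mono hcard

end Pool.Agent.Helper25.Meet
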